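import Pool.Agent.TH602.A7

set_option autoImplicit false

open scoped ContDiff InnerProductSpace SchwartzMap FourierTransform LineDeriv Laplacian Convolution
open MeasureTheory SchwartzMap Real Filter Topology

namespace Pool.Agent.TH602

variable {n : ℕ}

lemma norm_iteratedFDeriv_le (k : ℕ) (f : 𝓢(V n, ℝ)) (x : V n) :
    ‖iteratedFDeriv ℝ k f x‖ ≤ (2 * π) ^ k * ∫ ξ, ‖ξ‖ ^ k * ‖hat f ξ‖ := by
  have e1 : (toC f : V n → ℂ) = Complex.ofRealLI ∘ f := rfl
  have e2 : ‖iteratedFDeriv ℝ k f x‖ = ‖iteratedFDeriv ℝ k (toC f) x‖ := by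
    rw [e1, LinearIsometry.norm_iteratedFDeriv_comp_left (n := (k : WithTop ℕ∞)) _
      ((f.smooth k).contDiffAt) le_rfl]
  have e3 : (toC f : V n → ℂ) = (𝓕 (hat f : V n → ℂ)) ∘ (LinearIsometryEquiv.neg ℝ) := by
    funext y
    show toC f y = 𝓕 (hat f : V n → ℂ) (-y)
    rw [← fourier_coe]
    unfold hat
    rw [fourier_fourier, neg_neg]
  have hint : ∀ m : ℕ, Integrable (fun v : V n => ‖v‖ ^ m * ‖hat f v‖) := fun m =>
    (hat f).integrable_pow_mul volume m
  rw [e2, e3, LinearIsometryEquiv.norm_iteratedFDeriv_comp_right,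
    Real.iteratedFDeriv_fourier (N := ⊤) (fun m _ => hint m) (hat f).continuous.aestronglyMeasurable
      le_top]
  refine (VectorFourier.norm_fourierIntegral_le_integral_norm _ _ _ _ _).trans ?_
  rw [← integral_const_mul]
  refine integral_mono_of_nonneg (Eventually.of_forall fun v => norm_nonneg _)
    ((hint k).const_mul _) (Eventually.of_forall fun v => ?_)
  refine (VectorFourier.norm_fourierPowSMulRight_le _ _ _ _).trans ?_
  have h1 : ‖(innerSL ℝ : V n →L[ℝ] V n →L[ℝ] ℝ)‖ ≤ 1 := norm_innerSL_le ℝ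
  have h2 : (2 * π * ‖(innerSL ℝ : V n →L[ℝ] V n →L[ℝ] ℝ)‖) ^ k ≤ (2 * π) ^ k := by
    exact pow_le_pow_left₀ (by positivity) (mul_le_of_le_one_right (by positivity) h1) k
  calc _ ≤ (2 * π) ^ k * ‖v‖ ^ k * ‖hat f v‖ := by gcongr
    _ = _ := by ring

lemma norm_iteratedFDeriv_le' {l : ℝ} (hl : 0 < l) (hl1 : l ≤ 1) (k : ℕ) (f : 𝓢(V n, ℝ)) (x : V n) :
    ‖iteratedFDeriv ℝ k f x‖ ≤ (2 * π / l) ^ k * N (qs (ql l k)) f := by
  refine (norm_iteratedFDeriv_le k f x).trans ?_
  rw [div_pow, div_mul_eq_mul_div, le_div_iff₀ (by positivity), mul_assoc]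
  refine mul_le_mul_of_nonneg_left ?_ (by positivity)
  rw [← integral_mul_const]
  unfold N
  have hint : Integrable (fun v : V n => ‖v‖ ^ k * ‖hat f v‖) :=
    (hat f).integrable_pow_mul volume k
  refine integral_mono (hint.mul_const _) (integrable_wt (ql_wt (n := n) hl.le hl1 k).qs (hat f))
    fun ξ => ?_
  beta_reduce
  unfold qs ql
  have h1 : (l * ‖ξ‖) ^ k ≤ (1 + l * ‖ξ‖) ^ k := by
    have := norm_nonneg ξ
    gcongr
    linarith
  have h2 := one_le_sg ξ
  calc ‖ξ‖ ^ k * ‖hat f ξ‖ * l ^ k = (l * ‖ξ‖) ^ k * 1 * ‖hat f ξ‖ := by rw [mul_pow]; ring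
    _ ≤ (1 + l * ‖ξ‖) ^ k * sg ξ * ‖hat f ξ‖ := by gcongr

lemma norm_fderiv_le (f : 𝓢(V n, ℝ)) (x : V n) : ‖fderiv ℝ f x‖ ≤ N (qs (ql 0 0)) f := by
  have hw := ql_wt (n := n) le_rfl zero_le_one 0
  refine ContinuousLinearMap.opNorm_le_bound _ (N_nonneg hw.qs _) fun m => ?_
  rw [Real.norm_eq_abs, ← dd_apply, mul_comm]
  exact (norm_le_N hw (one_le_ql le_rfl 0) _ x).trans (N_dd_le hw m f)

lemma N_le_NV {q : V n → ℝ} (hq : Good q) (w : Idx n → 𝓢(V n, ℝ)) (J : Idx n) :
    N (qs q) (w J) ≤ NV q w :=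
  Finset.single_le_sum (f := fun J => N (qs q) (w J)) (fun _ _ => N_nonneg hq.wt.qs _)
    (Finset.mem_univ J)

lemma fderiv_expand (φ : V n →L[ℝ] ℝ) (a : V n) : φ a = ∑ i, a i * φ (ee i) := by
  have h1 : a = ∑ i, a i • (ee i : V n) := by
    ext j
    simp [ee, Pi.single_apply]
  conv_lhs => rw [h1]
  rw [map_sum]
  simp only [map_smul, smul_eq_mul]

/-- The perturbation theorem: every small smooth rapidly decreasing change of the metric induced by
the reference map `uu` is realised by a small smooth perturbation of `uu`. -/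
theorem perturb {n : ℕ} (h : Fin n → Fin n → 𝓢(V n, ℝ)) (hs : ∀ i j, h i j = h j i) {η : ℝ}
    (hη : 0 < η) : ∃ t₀ > 0, ∀ t, 0 < t → t < t₀ → ∃ w : Idx n → V n → ℝ,
      (∀ J, ContDiff ℝ ∞ (w J)) ∧ (∀ J x, ‖fderiv ℝ (w J) x‖ ≤ η) ∧
      ∀ x a, ∑ J, (fderiv ℝ (uu J) x a + fderiv ℝ (w J) x a) ^ 2 =
        ∑ J, (fderiv ℝ (uu J) x a) ^ 2 + t * ∑ i, ∑ j, h i j x * a i * a j := by
  obtain ⟨C, hC1, hC⟩ := NV_TT_le n
  set r : ℝ := min η (1 / (4 * C)) with hr
  have hC0 : 0 < C := by linarith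
  have hr0 : 0 < r := lt_min hη (by positivity)
  have hrη : r ≤ η := min_le_left _ _
  have hCr : C * r ≤ 1 / 4 := by
    calc C * r ≤ C * (1 / (4 * C)) := by gcongr; exact min_le_right _ _
      _ = 1 / 4 := by field_simp
  have g0 : Good (ql 0 0 : V n → ℝ) := ql_good le_rfl 0 (by simp)
  set H : ℝ := NM (ql 0 0) h + 1 with hH
  have hH0 : 0 < H := by
    have := NM_nonneg g0 h
    linarith
  refine ⟨r / (2 * C * H), by positivity, fun t ht ht0 => ?_⟩
  have htr : C * (t * H) ≤ r / 2 := by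
    rw [lt_div_iff₀ (by positivity)] at ht0
    linarith
  have key : ∀ s : ℕ, ∃ l : ℝ, 0 < l ∧ l ≤ 1 ∧ Good (ql l s : V n → ℝ) ∧ ∀ m,
      NV (ql l s) (wi h t m) ≤ r ∧ NV (ql l s) (wi h t (m + 1) - wi h t m) ≤ r * (1/2) ^ m := by
    intro s
    have hp : (0:ℝ) < 2 ^ s := by positivity
    have hM : 0 ≤ NM (ql 1 s) h := by
      unfold NM
      exact Finset.sum_nonneg fun _ _ => Finset.sum_nonneg fun _ _ =>
        N_nonneg (ql_wt (n := n) zero_le_one le_rfl s).qs _
    refine ⟨min (1 / 2 ^ s) (1 / (1 + NM (ql 1 s) h)), lt_min (by positivity) (by positivity), ?_, ?_⟩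
    · refine (min_le_left _ _).trans ?_
      rw [div_le_one hp]
      exact one_le_pow₀ (by norm_num)
    · set l := min (1 / 2 ^ s) (1 / (1 + NM (ql 1 s) h)) with hl
      have hl0 : 0 < l := lt_min (by positivity) (by positivity)
      have hl1 : l * 2 ^ s ≤ 1 := by
        have : l ≤ 1 / 2 ^ s := min_le_left _ _
        rwa [le_div_iff₀ hp] at this
      have hl2 : l * NM (ql 1 s) h ≤ 1 := by
        have : l ≤ 1 / (1 + NM (ql 1 s) h) := min_le_right _ _
        rw [le_div_iff₀ (by positivity)] at this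
        nlinarith
      have hl3 : l ≤ 1 := by
        have : (1:ℝ) ≤ 2 ^ s := one_le_pow₀ (by norm_num)
        nlinarith
      have hg := ql_good (n := n) hl0.le s hl1
      refine ⟨hg, fun m => ?_⟩
      refine wi_bound hC1 hg (hC _ hg).1 (hC _ hg).2 h ht.le hr0 hCr ?_ m
      have h1 := NM_ql_le hl0.le hl3 s h
      have h2 : NM (ql l s) h ≤ H := by linarith
      refine le_trans ?_ htr
      gcongr
  choose l hl0 hl1 hlg hlb using key
  -- the base bound
  have hb0 : ∀ m, NV (ql 0 0) (wi h t m) ≤ r := by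
    intro m
    refine (wi_bound hC1 g0 (hC _ g0).1 (hC _ g0).2 h ht.le hr0 hCr ?_ m).1
    refine le_trans ?_ htr
    have := NM_nonneg g0 h
    gcongr
    linarith
  set d : ℕ → Idx n → 𝓢(V n, ℝ) := fun m J => (wi h t (m + 1) - wi h t m) J with hd
  have hdk : ∀ (k m : ℕ) (J : Idx n) (x : V n),
      ‖iteratedFDeriv ℝ k (d m J) x‖ ≤ (2 * π / l k) ^ k * (r * (1/2) ^ m) := by
    intro k m J x
    refine (norm_iteratedFDeriv_le' (hl0 k) (hl1 k) k _ x).trans ?_
    have := hl0 k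
    gcongr
    exact (N_le_NV (hlg k) _ J).trans (hlb k m).2
  have hsum : ∀ c : ℝ, Summable fun m : ℕ => c * (r * (1/2 : ℝ) ^ m) := fun c =>
    ((summable_geometric_of_lt_one (by norm_num) (by norm_num)).mul_left r).mul_left c
  have hdf : ∀ (m : ℕ) (J : Idx n) (x : V n),
      ‖fderiv ℝ (d m J) x‖ ≤ (2 * π / l 1) ^ 1 * (r * (1/2) ^ m) := by
    intro m J x
    rw [← norm_iteratedFDeriv_one]
    exact hdk 1 m J x
  have hdsum : ∀ (J : Idx n) (x : V n), Summable fun m => fderiv ℝ (d m J) x := fun J x =>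
    Summable.of_norm_bounded (hsum _) fun m => hdf m J x
  have hdsum0 : ∀ (J : Idx n) (x : V n), Summable fun m => d m J x := fun J x => by
    refine Summable.of_norm_bounded (hsum ((2 * π / l 0) ^ 0)) fun m => ?_
    have := hdk 0 m J x
    rwa [norm_iteratedFDeriv_zero] at this
  set w : Idx n → V n → ℝ := fun J x => ∑' m, d m J x with hw
  have hwC : ∀ J, ContDiff ℝ ∞ (w J) := by
    intro J
    exact contDiff_tsum (N := ⊤) (fun m => (d m J).smooth ⊤) (fun k _ => hsum ((2 * π / l k) ^ k))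
      (fun k m x _ => hdk k m J x)
  have hlim : ∀ J x, Tendsto (fun M => fderiv ℝ (wi h t M J) x) atTop (𝓝 (fderiv ℝ (w J) x)) := by
    intro J x
    have h1 : fderiv ℝ (w J) x = ∑' m, fderiv ℝ (d m J) x :=
      fderiv_tsum_apply (hsum _) (fun m => (d m J).differentiable) (fun m x => hdf m J x)
        (hdsum0 J x) x
    rw [h1]
    have h2 := (hdsum J x).hasSum.tendsto_sum_nat
    refine h2.congr fun M => ?_
    induction M with
    | zero =>
      simp only [Finset.range_zero, Finset.sum_empty, wi]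
      symm
      exact fderiv_const_apply (0:ℝ)
    | succ M ih =>
      rw [Finset.sum_range_succ, ih]
      have e : (wi h t (M + 1) J : V n → ℝ) = fun y => wi h t M J y + d M J y := by
        funext y
        simp only [hd, Pi.sub_apply, sub_apply']
        ring
      rw [e, fderiv_fun_add (wi h t M J).differentiableAt (d M J).differentiableAt]
  refine ⟨w, hwC, fun J x => ?_, fun x a => ?_⟩
  · refine le_of_tendsto (hlim J x).norm (Eventually.of_forall fun M => ?_)
    exact (norm_fderiv_le _ x).trans ((N_le_NV g0 _ J).trans ((hb0 M).trans hrη))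
  · have hstar : ∀ i j, ∑ J : Idx n, (fderiv ℝ (uu J) x (ee i) * fderiv ℝ (w J) x (ee j) +
        fderiv ℝ (uu J) x (ee j) * fderiv ℝ (w J) x (ee i) +
        fderiv ℝ (w J) x (ee i) * fderiv ℝ (w J) x (ee j)) = t * h i j x := by
      intro i j
      have hap : ∀ J (v : V n), Tendsto (fun M => fderiv ℝ (wi h t M J) x v) atTop
          (𝓝 (fderiv ℝ (w J) x v)) := fun J v =>
        ((ContinuousLinearMap.apply ℝ ℝ v).continuous.tendsto _).comp (hlim J x)
      have h1 : Tendsto (fun M => ∑ J : Idx n,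
          (fderiv ℝ (uu J) x (ee i) * fderiv ℝ (wi h t (M + 1) J) x (ee j) +
          fderiv ℝ (uu J) x (ee j) * fderiv ℝ (wi h t (M + 1) J) x (ee i) +
          fderiv ℝ (wi h t M J) x (ee i) * fderiv ℝ (wi h t M J) x (ee j))) atTop
          (𝓝 (∑ J : Idx n, (fderiv ℝ (uu J) x (ee i) * fderiv ℝ (w J) x (ee j) +
        fderiv ℝ (uu J) x (ee j) * fderiv ℝ (w J) x (ee i) +
        fderiv ℝ (w J) x (ee i) * fderiv ℝ (w J) x (ee j)))) := by
        refine tendsto_finsetSum _ fun J _ => ?_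
        refine ((((tendsto_add_atTop_iff_nat 1).2 (hap J (ee j))).const_mul _).add
          (((tendsto_add_atTop_iff_nat 1).2 (hap J (ee i))).const_mul _)).add
          ((hap J (ee i)).mul (hap J (ee j)))
      refine tendsto_nhds_unique h1 ?_
      refine tendsto_const_nhds.congr fun M => ?_
      exact (star h hs t (wi h t M) x i j).symm
    have e1 : ∀ J : Idx n, (fderiv ℝ (uu J) x a + fderiv ℝ (w J) x a) ^ 2 =
        (fderiv ℝ (uu J) x a) ^ 2 + ∑ i, ∑ j, a i * a j *
          (fderiv ℝ (uu J) x (ee i) * fderiv ℝ (w J) x (ee j) +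
          fderiv ℝ (uu J) x (ee j) * fderiv ℝ (w J) x (ee i) +
          fderiv ℝ (w J) x (ee i) * fderiv ℝ (w J) x (ee j)) := by
      intro J
      have hu := fderiv_expand (fderiv ℝ (uu J) x) a
      have hw := fderiv_expand (fderiv ℝ (w J) x) a
      have q1 : ∑ i, ∑ j, a i * a j * (fderiv ℝ (uu J) x (ee i) * fderiv ℝ (w J) x (ee j)) =
          fderiv ℝ (uu J) x a * fderiv ℝ (w J) x a := by
        rw [hu, hw, Finset.sum_mul_sum]
        exact Finset.sum_congr rfl fun i _ => Finset.sum_congr rfl fun j _ => by ring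
      have q2 : ∑ i, ∑ j, a i * a j * (fderiv ℝ (uu J) x (ee j) * fderiv ℝ (w J) x (ee i)) =
          fderiv ℝ (uu J) x a * fderiv ℝ (w J) x a := by
        rw [hu, hw, Finset.sum_mul_sum, Finset.sum_comm]
        exact Finset.sum_congr rfl fun i _ => Finset.sum_congr rfl fun j _ => by ring
      have q3 : ∑ i, ∑ j, a i * a j * (fderiv ℝ (w J) x (ee i) * fderiv ℝ (w J) x (ee j)) =
          fderiv ℝ (w J) x a * fderiv ℝ (w J) x a := by
        rw [hw, Finset.sum_mul_sum]
        exact Finset.sum_congr rfl fun i _ => Finset.sum_congr rfl fun j _ => by ring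
      simp only [mul_add, Finset.sum_add_distrib]
      rw [q1, q2, q3]
      ring
    rw [Finset.sum_congr rfl fun J _ => e1 J, Finset.sum_add_distrib, Finset.sum_comm]
    congr 1
    rw [Finset.mul_sum]
    refine Finset.sum_congr rfl fun i _ => ?_
    rw [Finset.sum_comm, Finset.mul_sum]
    refine Finset.sum_congr rfl fun j _ => ?_
    rw [← Finset.mul_sum, hstar i j]
    ring

end Pool.Agent.TH602
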