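import Pool.Agent.TH602.Defs

set_option autoImplicit false

open scoped ContDiff InnerProductSpace SchwartzMap FourierTransform LineDeriv Laplacian
open MeasureTheory SchwartzMap Real

namespace Pool.Agent.TH602

variable {n : ℕ}

/-- weights of polynomial growth -/
structure Wt (q : V n → ℝ) : Prop where
  cont : Continuous q
  nonneg : ∀ ξ, 0 ≤ q ξ
  growth : ∃ (C : ℝ) (k : ℕ), ∀ ξ, q ξ ≤ C * (1 + ‖ξ‖) ^ k

lemma integrable_wt {q : V n → ℝ} (hq : Wt q) (F : 𝓢(V n, ℂ)) :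
    Integrable (fun ξ => q ξ * ‖F ξ‖) := by
  obtain ⟨C, k, hC⟩ := hq.growth
  have h1 : Integrable (fun ξ : V n => ‖F ξ‖) := F.integrable.norm
  have h2 : Integrable (fun ξ : V n => ‖ξ‖ ^ k * ‖F ξ‖) := F.integrable_pow_mul volume k
  have h3 : Integrable (fun ξ : V n => |C| * 2 ^ k * (‖F ξ‖ + ‖ξ‖ ^ k * ‖F ξ‖)) :=
    (h1.add h2).const_mul _
  refine h3.mono' (hq.cont.mul F.continuous.norm).aestronglyMeasurable ?_
  refine Filter.Eventually.of_forall fun ξ => ?_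
  rw [Real.norm_eq_abs, abs_mul, abs_norm, abs_of_nonneg (hq.nonneg ξ)]
  have h4 : (1 + ‖ξ‖) ^ k ≤ 2 ^ k * (1 + ‖ξ‖ ^ k) := by
    rcases le_total ‖ξ‖ 1 with h | h
    · calc (1 + ‖ξ‖) ^ k ≤ (1 + 1) ^ k := by gcongr
        _ = 2 ^ k * 1 := by norm_num
        _ ≤ 2 ^ k * (1 + ‖ξ‖ ^ k) := by gcongr; linarith [pow_nonneg (norm_nonneg ξ) k]
    · calc (1 + ‖ξ‖) ^ k ≤ (‖ξ‖ + ‖ξ‖) ^ k := by gcongr
        _ = 2 ^ k * ‖ξ‖ ^ k := by rw [← two_mul, mul_pow]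
        _ ≤ 2 ^ k * (1 + ‖ξ‖ ^ k) := by gcongr; linarith
  calc q ξ * ‖F ξ‖ ≤ (C * (1 + ‖ξ‖) ^ k) * ‖F ξ‖ := by gcongr; exact hC ξ
    _ ≤ (|C| * (2 ^ k * (1 + ‖ξ‖ ^ k))) * ‖F ξ‖ := by
        gcongr
        exact le_abs_self C
    _ = |C| * 2 ^ k * (‖F ξ‖ + ‖ξ‖ ^ k * ‖F ξ‖) := by ring

/-- complexification of real valued functions -/
noncomputable def toC : 𝓢(V n, ℝ) →L[ℝ] 𝓢(V n, ℂ) :=
  postcompCLM (𝕜 := ℝ) (Complex.ofRealCLM : ℝ →L[ℝ] ℂ)

lemma toC_apply (f : 𝓢(V n, ℝ)) (x : V n) : toC f x = (f x : ℂ) := rfl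

/-- Fourier transform of a real function -/
noncomputable def hat (f : 𝓢(V n, ℝ)) : 𝓢(V n, ℂ) := 𝓕 (toC f)

lemma hat_add (f g : 𝓢(V n, ℝ)) : hat (f + g) = hat f + hat g := by
  unfold hat; rw [map_add, FourierTransform.fourier_add]

lemma hat_sub (f g : 𝓢(V n, ℝ)) : hat (f - g) = hat f - hat g := by
  unfold hat; rw [sub_eq_add_neg, map_add, map_neg, FourierTransform.fourier_add, FourierTransform.fourier_neg, ← sub_eq_add_neg]

lemma hat_neg (f : 𝓢(V n, ℝ)) : hat (-f) = - hat f := by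
  unfold hat; rw [map_neg, FourierTransform.fourier_neg]

lemma hat_smul (c : ℝ) (f : 𝓢(V n, ℝ)) : hat (c • f) = c • hat f := by
  unfold hat; rw [map_smul, FourierTransform.fourier_smul]

lemma hat_zero : hat (0 : 𝓢(V n, ℝ)) = 0 := by
  have := hat_smul (0:ℝ) (0 : 𝓢(V n, ℝ))
  simpa using this

/-- the weighted norm on the Fourier side -/
noncomputable def N (q : V n → ℝ) (f : 𝓢(V n, ℝ)) : ℝ := ∫ ξ, q ξ * ‖hat f ξ‖

lemma N_nonneg {q : V n → ℝ} (hq : Wt q) (f : 𝓢(V n, ℝ)) : 0 ≤ N q f :=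
  integral_nonneg fun ξ => mul_nonneg (hq.nonneg ξ) (norm_nonneg _)

lemma N_zero (q : V n → ℝ) : N q (0 : 𝓢(V n, ℝ)) = 0 := by
  unfold N; rw [hat_zero]; simp

lemma N_neg (q : V n → ℝ) (f : 𝓢(V n, ℝ)) : N q (-f) = N q f := by
  unfold N; rw [hat_neg]; simp

lemma N_smul (q : V n → ℝ) (c : ℝ) (f : 𝓢(V n, ℝ)) : N q (c • f) = |c| * N q f := by
  unfold N
  rw [hat_smul, ← integral_const_mul]
  congr 1
  funext ξ
  simp only [smul_apply, norm_smul, Real.norm_eq_abs]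
  ring

lemma N_add_le {q : V n → ℝ} (hq : Wt q) (f g : 𝓢(V n, ℝ)) : N q (f + g) ≤ N q f + N q g := by
  unfold N
  rw [hat_add, ← integral_add (integrable_wt hq _) (integrable_wt hq _)]
  refine integral_mono (integrable_wt hq _) ((integrable_wt hq _).add (integrable_wt hq _)) ?_
  intro ξ
  simp only [add_apply]
  rw [← mul_add]
  exact mul_le_mul_of_nonneg_left (norm_add_le _ _) (hq.nonneg ξ)

lemma N_sub_le {q : V n → ℝ} (hq : Wt q) (f g : 𝓢(V n, ℝ)) : N q (f - g) ≤ N q f + N q g := by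
  rw [sub_eq_add_neg, ← N_neg q g]; exact N_add_le hq _ _

lemma N_sum_le {q : V n → ℝ} (hq : Wt q) {ι : Type} (s : Finset ι) (f : ι → 𝓢(V n, ℝ)) :
    N q (∑ i ∈ s, f i) ≤ ∑ i ∈ s, N q (f i) := by
  classical
  induction s using Finset.induction_on with
  | empty => simp [N_zero]
  | insert i s hi ih =>
    rw [Finset.sum_insert hi, Finset.sum_insert hi]
    exact (N_add_le hq _ _).trans (by linarith)

/-- domination principle -/
lemma N_le_of_hat {q p : V n → ℝ} (hq : Wt q) (hp : Wt p) {f g : 𝓢(V n, ℝ)} {C : ℝ}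
    (h : ∀ ξ, q ξ * ‖hat g ξ‖ ≤ C * (p ξ * ‖hat f ξ‖)) : N q g ≤ C * N p f := by
  unfold N
  rw [← integral_const_mul]
  exact integral_mono (integrable_wt hq _) ((integrable_wt hp _).const_mul _) h

lemma norm_le_N {q : V n → ℝ} (hq : Wt q) (h1 : ∀ ξ, 1 ≤ q ξ) (f : 𝓢(V n, ℝ)) (x : V n) :
    |f x| ≤ N q f := by
  have h2 : (𝓕⁻ (hat f)) x = (f x : ℂ) := by
    unfold hat
    rw [FourierTransform.fourierInv_fourier_eq]; rfl
  have h3 : |f x| = ‖(𝓕⁻ (hat f)) x‖ := by rw [h2]; simp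
  rw [h3, fourierInv_coe, Real.fourierInv_eq]
  refine (norm_integral_le_integral_norm _).trans ?_
  unfold N
  refine integral_mono_of_nonneg (Filter.Eventually.of_forall fun ξ => norm_nonneg _)
    (integrable_wt hq _) (Filter.Eventually.of_forall fun ξ => ?_)
  simp only [Circle.norm_smul]
  exact le_mul_of_one_le_left (norm_nonneg _) (h1 ξ)

end Pool.Agent.TH602
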