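import Pool.Agent.TH602.A1

set_option autoImplicit false

open scoped ContDiff InnerProductSpace SchwartzMap FourierTransform LineDeriv Laplacian Convolution
open MeasureTheory SchwartzMap Real

namespace Pool.Agent.TH602

variable {n : ℕ}

/-! ### products -/

/-- product of Schwartz functions -/
noncomputable def mulS (f g : 𝓢(V n, ℝ)) : 𝓢(V n, ℝ) :=
  pairing (ContinuousLinearMap.mul ℝ ℝ) f g

@[simp] lemma mulS_apply (f g : 𝓢(V n, ℝ)) (x : V n) : mulS f g x = f x * g x := rfl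

lemma toC_mulS (f g : 𝓢(V n, ℝ)) :
    toC (mulS f g) = pairing (ContinuousLinearMap.mul ℂ ℂ) (toC f) (toC g) := by
  ext x
  simp [toC_apply, mulS_apply, pairing_apply_apply]

lemma fourier_fourier (F : 𝓢(V n, ℂ)) (x : V n) : (𝓕 (𝓕 F)) x = F (-x) := by
  have h : F (-x) = (𝓕⁻ (𝓕 F)) (-x) := by rw [FourierTransform.fourierInv_fourier_eq]
  rw [h, fourierInv_coe, Real.fourierInv_eq_fourier_neg, neg_neg, fourier_coe]

lemma fourier_pairing (F G : 𝓢(V n, ℂ)) (ξ : V n) :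
    (𝓕 (pairing (ContinuousLinearMap.mul ℂ ℂ) F G)) ξ =
      ((𝓕 F : 𝓢(V n, ℂ)) ⋆[ContinuousLinearMap.mul ℂ ℂ] (𝓕 G : 𝓢(V n, ℂ))) ξ := by
  rw [← SchwartzMap.convolution_apply]
  have h1 : SchwartzMap.convolution (ContinuousLinearMap.mul ℂ ℂ) (𝓕 F : 𝓢(V n, ℂ))
      (𝓕 G : 𝓢(V n, ℂ)) = 𝓕⁻ (pairing (ContinuousLinearMap.mul ℂ ℂ) (𝓕 (𝓕 F)) (𝓕 (𝓕 G))) := by
    rw [← fourier_convolution, FourierTransform.fourierInv_fourier_eq]
  rw [h1, fourierInv_coe, Real.fourierInv_eq_fourier_neg, fourier_coe, Real.fourier_eq,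
    Real.fourier_eq, ← integral_neg_eq_self]
  congr 1
  funext v
  simp only [pairing_apply_apply, fourier_fourier, inner_neg_left, inner_neg_right]

/-- the norm is submultiplicative for submultiplicative weights -/
lemma N_mul_le {q : V n → ℝ} (hq : Wt q) (hsub : ∀ ξ η, q (ξ + η) ≤ q ξ * q η)
    (f g : 𝓢(V n, ℝ)) : N q (mulS f g) ≤ N q f * N q g := by
  set a : V n → ℝ := fun ξ => q ξ * ‖hat f ξ‖ with ha
  set b : V n → ℝ := fun ξ => q ξ * ‖hat g ξ‖ with hb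
  have hai : Integrable a := integrable_wt hq _
  have hbi : Integrable b := integrable_wt hq _
  have h1 : ∫ ξ, (a ⋆[ContinuousLinearMap.mul ℝ ℝ] b) ξ = N q f * N q g := by
    rw [integral_convolution _ hai hbi]
    rfl
  rw [← h1]
  unfold N
  refine integral_mono_ae (integrable_wt hq _) (hai.integrable_convolution _ hbi) ?_
  filter_upwards [hai.ae_convolution_exists (ContinuousLinearMap.mul ℝ ℝ) hbi] with ξ hξ
  have h2 : hat (mulS f g) ξ = ∫ η, hat f η * hat g (ξ - η) := by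
    unfold hat
    rw [toC_mulS, fourier_pairing]
    rfl
  have h3 : (a ⋆[ContinuousLinearMap.mul ℝ ℝ] b) ξ = ∫ η, a η * b (ξ - η) := rfl
  rw [h2, h3]
  calc q ξ * ‖∫ η, hat f η * hat g (ξ - η)‖ ≤ q ξ * ∫ η, ‖hat f η * hat g (ξ - η)‖ := by
        gcongr
        · exact hq.nonneg ξ
        · exact norm_integral_le_integral_norm _
    _ = ∫ η, q ξ * ‖hat f η * hat g (ξ - η)‖ := by rw [integral_const_mul]
    _ ≤ ∫ η, a η * b (ξ - η) := by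
        refine integral_mono_of_nonneg (Filter.Eventually.of_forall fun η => ?_) hξ
          (Filter.Eventually.of_forall fun η => ?_)
        · exact mul_nonneg (hq.nonneg ξ) (norm_nonneg _)
        · have h4 : q ξ ≤ q η * q (ξ - η) := by
            have := hsub η (ξ - η)
            rwa [add_sub_cancel] at this
          simp only [ha, hb, norm_mul]
          calc q ξ * (‖hat f η‖ * ‖hat g (ξ - η)‖)
              ≤ (q η * q (ξ - η)) * (‖hat f η‖ * ‖hat g (ξ - η)‖) := by gcongr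
            _ = q η * ‖hat f η‖ * (q (ξ - η) * ‖hat g (ξ - η)‖) := by ring

/-! ### multiplication by trigonometric functions -/

lemma abs_iteratedDeriv_cos_sin (k : ℕ) : ∀ x : ℝ, |iteratedDeriv k Real.cos x| ≤ 1 ∧
    |iteratedDeriv k Real.sin x| ≤ 1 := by
  induction k with
  | zero => intro x; simp [Real.abs_cos_le_one, Real.abs_sin_le_one]
  | succ k ih =>
    intro x
    rw [iteratedDeriv_succ', iteratedDeriv_succ']
    have h1 : deriv Real.cos = fun x => - Real.sin x := by funext x; simp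
    have h2 : deriv Real.sin = Real.cos := by funext x; simp
    rw [h1, h2]
    refine ⟨?_, (ih x).1⟩
    have h3 : iteratedDeriv k (fun x => - Real.sin x) x = - iteratedDeriv k Real.sin x := by
      exact iteratedDeriv_neg k Real.sin x
    rw [h3, abs_neg]
    exact (ih x).2

lemma temperate_cos : Function.HasTemperateGrowth Real.cos := by
  refine ⟨Real.contDiff_cos, fun k => ⟨0, 1, fun x => ?_⟩⟩
  rw [norm_iteratedFDeriv_eq_norm_iteratedDeriv, Real.norm_eq_abs]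
  simpa using (abs_iteratedDeriv_cos_sin k x).1

lemma temperate_sin : Function.HasTemperateGrowth Real.sin := by
  refine ⟨Real.contDiff_sin, fun k => ⟨0, 1, fun x => ?_⟩⟩
  rw [norm_iteratedFDeriv_eq_norm_iteratedDeriv, Real.norm_eq_abs]
  simpa using (abs_iteratedDeriv_cos_sin k x).2

lemma temperate_cos' (κ : V n) : Function.HasTemperateGrowth (fun x : V n => Real.cos ⟪κ, x⟫_ℝ) :=
  temperate_cos.comp (Function.hasTemperateGrowth_inner_right κ)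

lemma temperate_sin' (κ : V n) : Function.HasTemperateGrowth (fun x : V n => Real.sin ⟪κ, x⟫_ℝ) :=
  temperate_sin.comp (Function.hasTemperateGrowth_inner_right κ)

/-- multiplication by `cos ⟨κ, x⟩` -/
noncomputable def cosM (κ : V n) : 𝓢(V n, ℝ) →L[ℝ] 𝓢(V n, ℝ) :=
  smulLeftCLM ℝ (fun x : V n => Real.cos ⟪κ, x⟫_ℝ)

/-- multiplication by `sin ⟨κ, x⟩` -/
noncomputable def sinM (κ : V n) : 𝓢(V n, ℝ) →L[ℝ] 𝓢(V n, ℝ) :=
  smulLeftCLM ℝ (fun x : V n => Real.sin ⟪κ, x⟫_ℝ)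

@[simp] lemma cosM_apply (κ : V n) (f : 𝓢(V n, ℝ)) (x : V n) :
    cosM κ f x = Real.cos ⟪κ, x⟫_ℝ * f x := by
  unfold cosM
  rw [smulLeftCLM_apply_apply (temperate_cos' κ)]
  rfl

@[simp] lemma sinM_apply (κ : V n) (f : 𝓢(V n, ℝ)) (x : V n) :
    sinM κ f x = Real.sin ⟪κ, x⟫_ℝ * f x := by
  unfold sinM
  rw [smulLeftCLM_apply_apply (temperate_sin' κ)]
  rfl

lemma hat_apply (f : 𝓢(V n, ℝ)) (ξ : V n) :
    hat f ξ = ∫ v, Complex.exp (-(2 * π * ⟪v, ξ⟫_ℝ : ℝ) * Complex.I) * (f v : ℂ) := by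
  unfold hat
  rw [fourier_coe, Real.fourier_eq']
  congr 1
  funext v
  rw [toC_apply, smul_eq_mul]
  congr 2
  push_cast
  ring

lemma integrable_exp_mul (f : 𝓢(V n, ℝ)) (ξ : V n) :
    Integrable fun v => Complex.exp (-(2 * π * ⟪v, ξ⟫_ℝ : ℝ) * Complex.I) * (f v : ℂ) := by
  have h1 : Integrable (fun v => (f v : ℂ)) := f.integrable.ofReal
  refine h1.norm.mono' ?_ (Filter.Eventually.of_forall fun v => ?_)
  · refine (Continuous.mul ?_ ?_).aestronglyMeasurable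
    · fun_prop
    · exact Complex.continuous_ofReal.comp f.continuous
  · rw [norm_mul]
    have : ‖Complex.exp (-(2 * π * ⟪v, ξ⟫_ℝ : ℝ) * Complex.I)‖ = 1 := by
      rw [← Complex.ofReal_neg, Complex.norm_exp_ofReal_mul_I]
    rw [this, one_mul]

lemma hat_cosM (κ : V n) (f : 𝓢(V n, ℝ)) (ξ : V n) :
    hat (cosM κ f) ξ = (hat f (ξ - (2 * π)⁻¹ • κ) + hat f (ξ + (2 * π)⁻¹ • κ)) / 2 := by
  rw [hat_apply, hat_apply, hat_apply, ← integral_add (integrable_exp_mul f _)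
    (integrable_exp_mul f _), ← integral_div]
  congr 1
  funext v
  rw [cosM_apply, inner_sub_right, inner_add_right, inner_smul_right, real_inner_comm v κ]
  have hπ : (2 * π) ≠ 0 := by positivity
  have e1 : -(((2 * π * (⟪v, ξ⟫_ℝ - (2 * π)⁻¹ * ⟪v, κ⟫_ℝ) : ℝ)) : ℂ) * Complex.I =
      -((2 * π * ⟪v, ξ⟫_ℝ : ℝ) : ℂ) * Complex.I + ((⟪v, κ⟫_ℝ : ℝ) : ℂ) * Complex.I := by
    have : (2 * π * (⟪v, ξ⟫_ℝ - (2 * π)⁻¹ * ⟪v, κ⟫_ℝ) : ℝ) = 2 * π * ⟪v, ξ⟫_ℝ - ⟪v, κ⟫_ℝ := by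
      field_simp
    rw [this]
    push_cast
    ring
  have e2 : -(((2 * π * (⟪v, ξ⟫_ℝ + (2 * π)⁻¹ * ⟪v, κ⟫_ℝ) : ℝ)) : ℂ) * Complex.I =
      -((2 * π * ⟪v, ξ⟫_ℝ : ℝ) : ℂ) * Complex.I + -((⟪v, κ⟫_ℝ : ℝ) : ℂ) * Complex.I := by
    have : (2 * π * (⟪v, ξ⟫_ℝ + (2 * π)⁻¹ * ⟪v, κ⟫_ℝ) : ℝ) = 2 * π * ⟪v, ξ⟫_ℝ + ⟪v, κ⟫_ℝ := by
      field_simp
    rw [this]
    push_cast
    ring
  rw [e1, e2, Complex.exp_add, Complex.exp_add]
  push_cast
  rw [Complex.cos]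
  ring

lemma hat_sinM (κ : V n) (f : 𝓢(V n, ℝ)) (ξ : V n) :
    hat (sinM κ f) ξ = (hat f (ξ + (2 * π)⁻¹ • κ) - hat f (ξ - (2 * π)⁻¹ • κ)) * Complex.I / 2 := by
  rw [hat_apply, hat_apply, hat_apply, ← integral_sub (integrable_exp_mul f _)
    (integrable_exp_mul f _), ← integral_mul_const, ← integral_div]
  congr 1
  funext v
  rw [sinM_apply, inner_sub_right, inner_add_right, inner_smul_right, real_inner_comm v κ]
  have hπ : (2 * π) ≠ 0 := by positivity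
  have e1 : -(((2 * π * (⟪v, ξ⟫_ℝ - (2 * π)⁻¹ * ⟪v, κ⟫_ℝ) : ℝ)) : ℂ) * Complex.I =
      -((2 * π * ⟪v, ξ⟫_ℝ : ℝ) : ℂ) * Complex.I + ((⟪v, κ⟫_ℝ : ℝ) : ℂ) * Complex.I := by
    have : (2 * π * (⟪v, ξ⟫_ℝ - (2 * π)⁻¹ * ⟪v, κ⟫_ℝ) : ℝ) = 2 * π * ⟪v, ξ⟫_ℝ - ⟪v, κ⟫_ℝ := by
      field_simp
    rw [this]
    push_cast
    ring
  have e2 : -(((2 * π * (⟪v, ξ⟫_ℝ + (2 * π)⁻¹ * ⟪v, κ⟫_ℝ) : ℝ)) : ℂ) * Complex.I =
      -((2 * π * ⟪v, ξ⟫_ℝ : ℝ) : ℂ) * Complex.I + -((⟪v, κ⟫_ℝ : ℝ) : ℂ) * Complex.I := by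
    have : (2 * π * (⟪v, ξ⟫_ℝ + (2 * π)⁻¹ * ⟪v, κ⟫_ℝ) : ℝ) = 2 * π * ⟪v, ξ⟫_ℝ + ⟪v, κ⟫_ℝ := by
      field_simp
    rw [this]
    push_cast
    ring
  rw [e1, e2, Complex.exp_add, Complex.exp_add]
  push_cast
  rw [Complex.sin]
  ring

lemma integral_shift {q : V n → ℝ} (hq : Wt q) {C : ℝ} {k : V n}
    (hs : ∀ ξ, q (ξ + k) ≤ C * q ξ) (f : 𝓢(V n, ℝ)) :
    Integrable (fun ξ => q ξ * ‖hat f (ξ - k)‖) ∧ ∫ ξ, q ξ * ‖hat f (ξ - k)‖ ≤ C * N q f := by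
  have h1 : Integrable (fun ξ => C * (q (ξ - k) * ‖hat f (ξ - k)‖)) :=
    ((integrable_wt hq (hat f)).comp_sub_right k).const_mul C
  have h2 : ∀ ξ, q ξ * ‖hat f (ξ - k)‖ ≤ C * (q (ξ - k) * ‖hat f (ξ - k)‖) := by
    intro ξ
    have := hs (ξ - k)
    rw [sub_add_cancel] at this
    calc q ξ * ‖hat f (ξ - k)‖ ≤ (C * q (ξ - k)) * ‖hat f (ξ - k)‖ := by gcongr
      _ = _ := by ring
  have h3 : Integrable (fun ξ => q ξ * ‖hat f (ξ - k)‖) := by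
    refine h1.mono' ?_ (Filter.Eventually.of_forall fun ξ => ?_)
    · exact (hq.cont.mul ((hat f).continuous.comp (continuous_id.sub continuous_const)).norm).aestronglyMeasurable
    · rw [Real.norm_eq_abs, abs_of_nonneg (mul_nonneg (hq.nonneg _) (norm_nonneg _))]
      exact h2 ξ
  refine ⟨h3, (integral_mono h3 h1 h2).trans ?_⟩
  rw [integral_const_mul]
  have := integral_sub_right_eq_self (μ := (volume : Measure (V n))) (fun ξ => q ξ * ‖hat f ξ‖) k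
  rw [this]
  rfl

lemma N_cosM_le {q : V n → ℝ} (hq : Wt q) {C : ℝ} {κ : V n}
    (hs : ∀ ξ, q (ξ + (2 * π)⁻¹ • κ) ≤ C * q ξ) (hs' : ∀ ξ, q (ξ + -((2 * π)⁻¹ • κ)) ≤ C * q ξ)
    (f : 𝓢(V n, ℝ)) : N q (cosM κ f) ≤ C * N q f := by
  obtain ⟨i1, b1⟩ := integral_shift hq hs f
  obtain ⟨i2, b2⟩ := integral_shift hq hs' f
  have h1 : N q (cosM κ f) ≤ ∫ ξ, (q ξ * ‖hat f (ξ - (2 * π)⁻¹ • κ)‖ +
      q ξ * ‖hat f (ξ - -((2 * π)⁻¹ • κ))‖) / 2 := by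
    unfold N
    refine integral_mono (integrable_wt hq _) ((i1.add i2).div_const 2) fun ξ => ?_
    simp only [Pi.add_apply]
    rw [hat_cosM, norm_div, ← mul_add, sub_neg_eq_add]
    have : ‖(2:ℂ)‖ = 2 := by simp
    rw [this, mul_div_assoc]
    refine mul_le_mul_of_nonneg_left ?_ (hq.nonneg ξ)
    gcongr
    exact norm_add_le _ _
  rw [integral_div, integral_add i1 i2] at h1
  linarith

lemma N_sinM_le {q : V n → ℝ} (hq : Wt q) {C : ℝ} {κ : V n}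
    (hs : ∀ ξ, q (ξ + (2 * π)⁻¹ • κ) ≤ C * q ξ) (hs' : ∀ ξ, q (ξ + -((2 * π)⁻¹ • κ)) ≤ C * q ξ)
    (f : 𝓢(V n, ℝ)) : N q (sinM κ f) ≤ C * N q f := by
  obtain ⟨i1, b1⟩ := integral_shift hq hs f
  obtain ⟨i2, b2⟩ := integral_shift hq hs' f
  have h1 : N q (sinM κ f) ≤ ∫ ξ, (q ξ * ‖hat f (ξ - (2 * π)⁻¹ • κ)‖ +
      q ξ * ‖hat f (ξ - -((2 * π)⁻¹ • κ))‖) / 2 := by
    unfold N
    refine integral_mono (integrable_wt hq _) ((i1.add i2).div_const 2) fun ξ => ?_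
    simp only [Pi.add_apply]
    rw [hat_sinM, norm_div, norm_mul, Complex.norm_I, mul_one, ← mul_add, sub_neg_eq_add]
    have : ‖(2:ℂ)‖ = 2 := by simp
    rw [this, mul_div_assoc]
    refine mul_le_mul_of_nonneg_left ?_ (hq.nonneg ξ)
    gcongr
    exact (norm_sub_le _ _).trans (le_of_eq (add_comm _ _))
  rw [integral_div, integral_add i1 i2] at h1
  linarith

end Pool.Agent.TH602
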