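import Pool.Agent.TH602.A2

set_option autoImplicit false

open scoped ContDiff InnerProductSpace SchwartzMap FourierTransform LineDeriv Laplacian Convolution
open MeasureTheory SchwartzMap Real

namespace Pool.Agent.TH602

variable {n : ℕ}

lemma toC_injective : Function.Injective (toC : 𝓢(V n, ℝ) → 𝓢(V n, ℂ)) := by
  intro f g h
  ext x
  have := congrArg (fun F : 𝓢(V n, ℂ) => F x) h
  simp only [toC_apply] at this
  exact_mod_cast this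

lemma hat_injective : Function.Injective (hat : 𝓢(V n, ℝ) → 𝓢(V n, ℂ)) := by
  intro f g h
  apply toC_injective
  unfold hat at h
  have := congrArg (fun F : 𝓢(V n, ℂ) => 𝓕⁻ F) h
  simpa only [FourierTransform.fourierInv_fourier_eq] using this

/-- directional derivative -/
noncomputable def dd (m : V n) (f : 𝓢(V n, ℝ)) : 𝓢(V n, ℝ) := ∂_{m} f

lemma dd_apply (m : V n) (f : 𝓢(V n, ℝ)) (x : V n) : dd m f x = fderiv ℝ f x m := rfl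

lemma toC_dd (m : V n) (f : 𝓢(V n, ℝ)) : toC (dd m f) = ∂_{m} (toC f) := by
  ext x
  rw [toC_apply, lineDerivOp_apply_eq_fderiv, dd_apply]
  have h1 : HasFDerivAt (fun x => (f x : ℂ)) (Complex.ofRealCLM.comp (fderiv ℝ f x)) x :=
    Complex.ofRealCLM.hasFDerivAt.comp x (f.differentiableAt.hasFDerivAt)
  have h2 : fderiv ℝ (toC f) x = Complex.ofRealCLM.comp (fderiv ℝ f x) := h1.fderiv
  rw [h2]
  rfl

lemma hat_dd (m : V n) (f : 𝓢(V n, ℝ)) (ξ : V n) :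
    hat (dd m f) ξ = (2 * π * Complex.I) * ((⟪ξ, m⟫_ℝ : ℝ) : ℂ) * hat f ξ := by
  unfold hat
  rw [toC_dd, fourier_lineDerivOp_eq, smul_apply, smulLeftCLM_apply_apply (by fun_prop)]
  simp only [smul_eq_mul, Complex.real_smul]
  ring

/-- standard basis vector -/
noncomputable abbrev ee (i : Fin n) : V n := EuclideanSpace.single i 1

lemma inner_ee (ξ : V n) (i : Fin n) : ⟪ξ, ee i⟫_ℝ = ξ i := by
  have := EuclideanSpace.inner_single_right (𝕜 := ℝ) i (1:ℝ) ξ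
  simpa using this

/-- the Laplacian -/
noncomputable def lap (f : 𝓢(V n, ℝ)) : 𝓢(V n, ℝ) := ∑ i, dd (ee i) (dd (ee i) f)

lemma hat_sum {ι : Type} (s : Finset ι) (f : ι → 𝓢(V n, ℝ)) :
    hat (∑ i ∈ s, f i) = ∑ i ∈ s, hat (f i) := by
  classical
  induction s using Finset.induction_on with
  | empty => simp [hat_zero]
  | insert i s hi ih => rw [Finset.sum_insert hi, Finset.sum_insert hi, hat_add, ih]

lemma hat_lap (f : 𝓢(V n, ℝ)) (ξ : V n) :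
    hat (lap f) ξ = -(((2 * π * ‖ξ‖) ^ 2 : ℝ) : ℂ) * hat f ξ := by
  unfold lap
  rw [hat_sum, sum_apply]
  simp only [hat_dd, inner_ee]
  have h1 : ‖ξ‖ ^ 2 = ∑ i, (ξ i) ^ 2 := by
    rw [EuclideanSpace.norm_sq_eq]
    simp
  rw [mul_pow, h1]
  push_cast
  rw [Finset.mul_sum, neg_mul, Finset.sum_mul, ← Finset.sum_neg_distrib]
  refine Finset.sum_congr rfl fun i _ => ?_
  have : Complex.I ^ 2 = -1 := Complex.I_sq
  linear_combination (2 * (π:ℂ)) ^ 2 * (ξ i : ℂ) ^ 2 * hat f ξ * this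

/-- the symbol `1 + |2 π ξ|²` -/
noncomputable def sg (ξ : V n) : ℝ := 1 + (2 * π * ‖ξ‖) ^ 2

lemma sg_pos (ξ : V n) : 0 < sg ξ := by unfold sg; positivity

lemma one_le_sg (ξ : V n) : 1 ≤ sg ξ := by
  unfold sg; nlinarith [sq_nonneg (2 * π * ‖ξ‖)]

lemma two_pi_norm_le_sg (ξ : V n) : 2 * π * ‖ξ‖ ≤ sg ξ := by
  unfold sg; nlinarith [sq_nonneg (2 * π * ‖ξ‖ - 1)]

lemma sq_le_sg (ξ : V n) : (2 * π * ‖ξ‖) ^ 2 ≤ sg ξ := by
  unfold sg; linarith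

lemma sg_cont : Continuous (sg : V n → ℝ) := by unfold sg; fun_prop

lemma temperate_sg_inv : Function.HasTemperateGrowth (fun ξ : V n => (sg ξ)⁻¹) := by
  have h1 := (Function.hasTemperateGrowth_one_add_norm_sq_rpow (H := V n) (-1)).comp
    ((2 * π) • ContinuousLinearMap.id ℝ (V n)).hasTemperateGrowth
  have h2 : (fun ξ : V n => (sg ξ)⁻¹) = (fun x : V n => (1 + ‖x‖ ^ 2) ^ (-1 : ℝ)) ∘
      ((2 * π) • ContinuousLinearMap.id ℝ (V n)) := by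
    funext ξ
    simp only [Function.comp_apply, ContinuousLinearMap.smul_apply, ContinuousLinearMap.id_apply, norm_smul]
    rw [Real.rpow_neg_one, Real.norm_of_nonneg (by positivity)]
    rfl
  rw [h2]
  exact h1

lemma conj_hat (f : 𝓢(V n, ℝ)) (ξ : V n) : (starRingEnd ℂ) (hat f ξ) = hat f (-ξ) := by
  rw [hat_apply, hat_apply, ← integral_conj]
  congr 1
  funext v
  rw [map_mul, ← Complex.exp_conj, Complex.conj_ofReal, map_mul, Complex.conj_I, map_neg,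
    Complex.conj_ofReal, inner_neg_right]
  congr 2
  push_cast
  ring

/-- the complex version of the inverse of `1 - Δ` -/
noncomputable def LamC (f : 𝓢(V n, ℝ)) : 𝓢(V n, ℂ) :=
  𝓕⁻ (smulLeftCLM ℂ (fun ξ : V n => (sg ξ)⁻¹) (hat f))

lemma LamC_apply (f : 𝓢(V n, ℝ)) (x : V n) :
    LamC f x = ∫ ξ, Complex.exp ((2 * π * ⟪ξ, x⟫_ℝ : ℝ) * Complex.I) * (((sg ξ)⁻¹ : ℝ) * hat f ξ) := by
  unfold LamC
  rw [fourierInv_coe, Real.fourierInv_eq']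
  congr 1
  funext v
  rw [smulLeftCLM_apply_apply temperate_sg_inv, Complex.real_smul, smul_eq_mul]

lemma conj_LamC (f : 𝓢(V n, ℝ)) (x : V n) : (starRingEnd ℂ) (LamC f x) = LamC f x := by
  rw [LamC_apply, ← integral_conj, ← integral_neg_eq_self]
  congr 1
  funext ξ
  rw [map_mul, map_mul, conj_hat, ← Complex.exp_conj, Complex.conj_ofReal, map_mul, Complex.conj_I,
    Complex.conj_ofReal, neg_neg, inner_neg_left]
  have : sg (-ξ) = sg ξ := by unfold sg; rw [norm_neg]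
  rw [this]
  congr 2
  push_cast
  ring

/-- the inverse of `1 - Δ` -/
noncomputable def Lam (f : 𝓢(V n, ℝ)) : 𝓢(V n, ℝ) :=
  postcompCLM (𝕜 := ℝ) (Complex.reCLM : ℂ →L[ℝ] ℝ) (LamC f)

lemma toC_Lam (f : 𝓢(V n, ℝ)) : toC (Lam f) = LamC f := by
  ext x
  rw [toC_apply]
  show (((LamC f x).re : ℝ) : ℂ) = LamC f x
  exact Complex.conj_eq_iff_re.1 (conj_LamC f x)

lemma hat_Lam (f : 𝓢(V n, ℝ)) (ξ : V n) : hat (Lam f) ξ = ((sg ξ)⁻¹ : ℝ) * hat f ξ := by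
  have h1 : hat (Lam f) = 𝓕 (LamC f) := by
    show 𝓕 (toC (Lam f)) = _
    rw [toC_Lam]
  rw [h1]
  unfold LamC
  rw [FourierTransform.fourier_fourierInv_eq, smulLeftCLM_apply_apply temperate_sg_inv,
    Complex.real_smul]

lemma Lam_sub_lap (f : 𝓢(V n, ℝ)) : Lam (f - lap f) = f := by
  apply hat_injective
  ext ξ
  rw [hat_Lam, hat_sub, sub_apply, hat_lap]
  have h1 : (sg ξ : ℂ) ≠ 0 := by exact_mod_cast (sg_pos ξ).ne'
  have h2 : (sg ξ : ℂ) = 1 + (((2 * π * ‖ξ‖) ^ 2 : ℝ) : ℂ) := by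
    unfold sg; push_cast; ring
  have h3 : hat f ξ - -(((2 * π * ‖ξ‖) ^ 2 : ℝ) : ℂ) * hat f ξ = (sg ξ : ℂ) * hat f ξ := by
    rw [h2]; ring
  rw [h3]
  push_cast
  rw [← mul_assoc, inv_mul_cancel₀ h1, one_mul]

lemma dd_Lam (m : V n) (f : 𝓢(V n, ℝ)) : dd m (Lam f) = Lam (dd m f) := by
  apply hat_injective
  ext ξ
  rw [hat_Lam, hat_dd, hat_dd, hat_Lam]
  ring

lemma Lam_add (f g : 𝓢(V n, ℝ)) : Lam (f + g) = Lam f + Lam g := by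
  apply hat_injective
  ext ξ
  rw [hat_Lam, hat_add, hat_add, add_apply, add_apply, hat_Lam, hat_Lam]
  ring

lemma Lam_neg (f : 𝓢(V n, ℝ)) : Lam (-f) = - Lam f := by
  apply hat_injective
  ext ξ
  rw [hat_Lam, hat_neg, hat_neg, neg_apply, neg_apply, hat_Lam]
  ring

lemma Lam_sub (f g : 𝓢(V n, ℝ)) : Lam (f - g) = Lam f - Lam g := by
  rw [sub_eq_add_neg, Lam_add, Lam_neg, ← sub_eq_add_neg]

/-! ### norm bounds -/

/-- the product of a weight with the symbol -/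
noncomputable def qs (q : V n → ℝ) (ξ : V n) : ℝ := q ξ * sg ξ

lemma Wt.qs {q : V n → ℝ} (hq : Wt q) : Wt (qs q) := by
  refine ⟨hq.cont.mul sg_cont, fun ξ => mul_nonneg (hq.nonneg ξ) (sg_pos ξ).le, ?_⟩
  obtain ⟨C, k, h⟩ := hq.growth
  refine ⟨|C| * (1 + (2 * π) ^ 2), k + 2, fun ξ => ?_⟩
  have h1 : sg ξ ≤ (1 + (2 * π) ^ 2) * (1 + ‖ξ‖) ^ 2 := by
    unfold sg
    have h0 := norm_nonneg ξ
    have h2 : (1:ℝ) ≤ (1 + ‖ξ‖) ^ 2 := by nlinarith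
    have h3 : ‖ξ‖ ^ 2 ≤ (1 + ‖ξ‖) ^ 2 := by nlinarith
    have h4 : 0 ≤ (2 * π) ^ 2 := by positivity
    calc 1 + (2 * π * ‖ξ‖) ^ 2 = 1 + (2 * π) ^ 2 * ‖ξ‖ ^ 2 := by ring
      _ ≤ (1 + ‖ξ‖) ^ 2 + (2 * π) ^ 2 * (1 + ‖ξ‖) ^ 2 := by gcongr
      _ = _ := by ring
  calc q ξ * sg ξ ≤ (|C| * (1 + ‖ξ‖) ^ k) * ((1 + (2 * π) ^ 2) * (1 + ‖ξ‖) ^ 2) := by
        gcongr
        · exact (sg_pos ξ).le
        · exact (h ξ).trans (by gcongr; exact le_abs_self C)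
    _ = |C| * (1 + (2 * π) ^ 2) * (1 + ‖ξ‖) ^ (k + 2) := by ring

lemma N_le_qs {q : V n → ℝ} (hq : Wt q) (f : 𝓢(V n, ℝ)) : N q f ≤ N (qs q) f := by
  have := N_le_of_hat hq hq.qs (f := f) (g := f) (C := 1) (fun ξ => ?_)
  · rwa [one_mul] at this
  · rw [one_mul]
    unfold qs
    have h1 := one_le_sg ξ
    have h2 : 0 ≤ q ξ * ‖hat f ξ‖ := mul_nonneg (hq.nonneg ξ) (norm_nonneg _)
    nlinarith

lemma N_dd_le {q : V n → ℝ} (hq : Wt q) (m : V n) (f : 𝓢(V n, ℝ)) :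
    N q (dd m f) ≤ ‖m‖ * N (qs q) f := by
  refine N_le_of_hat hq hq.qs (fun ξ => ?_)
  rw [hat_dd, norm_mul, norm_mul, norm_mul, norm_mul, Complex.norm_I, mul_one]
  simp only [Complex.norm_real, Complex.norm_ofNat, Real.norm_eq_abs, abs_of_pos Real.pi_pos]
  have h1 : |⟪ξ, m⟫_ℝ| ≤ ‖ξ‖ * ‖m‖ := abs_real_inner_le_norm ξ m
  have h2 := two_pi_norm_le_sg ξ
  have h3 : 2 * π * |⟪ξ, m⟫_ℝ| ≤ ‖m‖ * sg ξ := by
    calc 2 * π * |⟪ξ, m⟫_ℝ| ≤ 2 * π * (‖ξ‖ * ‖m‖) := by gcongr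
      _ = ‖m‖ * (2 * π * ‖ξ‖) := by ring
      _ ≤ ‖m‖ * sg ξ := by gcongr
  calc q ξ * (2 * π * |⟪ξ, m⟫_ℝ| * ‖hat f ξ‖) ≤ q ξ * (‖m‖ * sg ξ * ‖hat f ξ‖) := by
        gcongr
        exact hq.nonneg ξ
    _ = ‖m‖ * (qs q ξ * ‖hat f ξ‖) := by unfold qs; ring

lemma N_ddd_le {q : V n → ℝ} (hq : Wt q) (m l : V n) (f : 𝓢(V n, ℝ)) :
    N q (dd m (dd l f)) ≤ ‖m‖ * ‖l‖ * N (qs q) f := by
  refine N_le_of_hat hq hq.qs (fun ξ => ?_)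
  rw [hat_dd, hat_dd]
  simp only [norm_mul, Complex.norm_I, mul_one]
  simp only [Complex.norm_real, Complex.norm_ofNat, Real.norm_eq_abs, abs_of_pos Real.pi_pos]
  have h1 : |⟪ξ, m⟫_ℝ| ≤ ‖ξ‖ * ‖m‖ := abs_real_inner_le_norm ξ m
  have h1' : |⟪ξ, l⟫_ℝ| ≤ ‖ξ‖ * ‖l‖ := abs_real_inner_le_norm ξ l
  have h2 := sq_le_sg ξ
  have h3 : 2 * π * |⟪ξ, m⟫_ℝ| * (2 * π * |⟪ξ, l⟫_ℝ|) ≤ ‖m‖ * ‖l‖ * sg ξ := by
    calc 2 * π * |⟪ξ, m⟫_ℝ| * (2 * π * |⟪ξ, l⟫_ℝ|)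
        ≤ 2 * π * (‖ξ‖ * ‖m‖) * (2 * π * (‖ξ‖ * ‖l‖)) := by gcongr
      _ = ‖m‖ * ‖l‖ * (2 * π * ‖ξ‖) ^ 2 := by ring
      _ ≤ ‖m‖ * ‖l‖ * sg ξ := by gcongr
  calc q ξ * (2 * π * |⟪ξ, m⟫_ℝ| * (2 * π * |⟪ξ, l⟫_ℝ| * ‖hat f ξ‖))
      = q ξ * (2 * π * |⟪ξ, m⟫_ℝ| * (2 * π * |⟪ξ, l⟫_ℝ|) * ‖hat f ξ‖) := by ring
    _ ≤ q ξ * (‖m‖ * ‖l‖ * sg ξ * ‖hat f ξ‖) := by
        gcongr
        exact hq.nonneg ξ
    _ = ‖m‖ * ‖l‖ * (qs q ξ * ‖hat f ξ‖) := by unfold qs; ring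

lemma N_lap_le {q : V n → ℝ} (hq : Wt q) (f : 𝓢(V n, ℝ)) : N q (lap f) ≤ N (qs q) f := by
  have := N_le_of_hat hq hq.qs (f := f) (g := lap f) (C := 1) (fun ξ => ?_)
  · rwa [one_mul] at this
  · rw [hat_lap, norm_mul, norm_neg, Complex.norm_real, Real.norm_eq_abs,
      abs_of_nonneg (by positivity), one_mul]
    have h2 := sq_le_sg ξ
    unfold qs
    rw [← mul_assoc]
    gcongr
    exact hq.nonneg ξ

lemma N_Lam_le {q : V n → ℝ} (hq : Wt q) (f : 𝓢(V n, ℝ)) : N (qs q) (Lam f) ≤ N q f := by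
  have := N_le_of_hat hq.qs hq (f := f) (g := Lam f) (C := 1) (fun ξ => ?_)
  · rwa [one_mul] at this
  · rw [hat_Lam, norm_mul, Complex.norm_real, Real.norm_eq_abs,
      abs_of_nonneg (inv_nonneg.2 (sg_pos ξ).le), one_mul]
    unfold qs
    have h1 := (sg_pos ξ).ne'
    have : q ξ * sg ξ * ((sg ξ)⁻¹ * ‖hat f ξ‖) = q ξ * ‖hat f ξ‖ := by
      field_simp
    rw [this]

end Pool.Agent.TH602
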