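import Pool.Agent.TH602.A3

set_option autoImplicit false

open scoped ContDiff InnerProductSpace SchwartzMap FourierTransform LineDeriv Laplacian Convolution
open MeasureTheory SchwartzMap Real

namespace Pool.Agent.TH602

variable {n : ℕ}

/-! ### algebra of the derivations -/

lemma dd_comm (m l : V n) (f : 𝓢(V n, ℝ)) : dd m (dd l f) = dd l (dd m f) := by
  apply hat_injective
  ext ξ
  simp only [hat_dd]
  ring

lemma dd_add (m : V n) (f g : 𝓢(V n, ℝ)) : dd m (f + g) = dd m f + dd m g := by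
  apply hat_injective
  ext ξ
  simp only [hat_dd, hat_add, add_apply]
  ring

lemma dd_sub (m : V n) (f g : 𝓢(V n, ℝ)) : dd m (f - g) = dd m f - dd m g := by
  apply hat_injective
  ext ξ
  simp only [hat_dd, hat_sub, sub_apply]
  ring

lemma dd_neg (m : V n) (f : 𝓢(V n, ℝ)) : dd m (-f) = - dd m f := by
  apply hat_injective
  ext ξ
  simp only [hat_dd, hat_neg, neg_apply]
  ring

lemma dd_sum (m : V n) {ι : Type} (s : Finset ι) (f : ι → 𝓢(V n, ℝ)) :
    dd m (∑ i ∈ s, f i) = ∑ i ∈ s, dd m (f i) := by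
  apply hat_injective
  rw [hat_sum]
  ext ξ
  rw [hat_dd, hat_sum, sum_apply, sum_apply, Finset.mul_sum]
  simp only [hat_dd]

lemma lap_sub (f g : 𝓢(V n, ℝ)) : lap (f - g) = lap f - lap g := by
  unfold lap
  simp only [dd_sub, Finset.sum_sub_distrib]

lemma dd_lap (m : V n) (f : 𝓢(V n, ℝ)) : dd m (lap f) = lap (dd m f) := by
  apply hat_injective
  ext ξ
  simp only [hat_dd, hat_lap]
  ring

lemma dd_mulS (m : V n) (f g : 𝓢(V n, ℝ)) :
    dd m (mulS f g) = mulS (dd m f) g + mulS f (dd m g) := by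
  ext x
  rw [add_apply, mulS_apply, mulS_apply, dd_apply, dd_apply, dd_apply]
  have h1 : HasFDerivAt (fun x => f x * g x) (f x • fderiv ℝ g x + g x • fderiv ℝ f x) x :=
    f.differentiableAt.hasFDerivAt.mul g.differentiableAt.hasFDerivAt
  have h2 : fderiv ℝ (mulS f g) x = f x • fderiv ℝ g x + g x • fderiv ℝ f x := h1.fderiv
  rw [h2]
  simp only [add_apply, smul_apply, smul_eq_mul]
  ring

lemma sub_apply' (f g : 𝓢(V n, ℝ)) (x : V n) : (f - g) x = f x - g x := rfl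
lemma add_apply' (f g : 𝓢(V n, ℝ)) (x : V n) : (f + g) x = f x + g x := rfl
lemma neg_apply' (f : 𝓢(V n, ℝ)) (x : V n) : (-f) x = - f x := rfl
lemma smul_apply' (c : ℝ) (f : 𝓢(V n, ℝ)) (x : V n) : (c • f) x = c * f x := rfl
lemma sum_apply' {ι : Type} (s : Finset ι) (f : ι → 𝓢(V n, ℝ)) (x : V n) :
    (∑ i ∈ s, f i) x = ∑ i ∈ s, f i x := by
  rw [sum_apply]

lemma mulS_sub_left (f f' g : 𝓢(V n, ℝ)) : mulS (f - f') g = mulS f g - mulS f' g := by
  ext x; simp only [mulS_apply, sub_apply']; ring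

lemma mulS_sub_right (f g g' : 𝓢(V n, ℝ)) : mulS f (g - g') = mulS f g - mulS f g' := by
  ext x; simp only [mulS_apply, sub_apply']; ring

lemma mulS_comm (f g : 𝓢(V n, ℝ)) : mulS f g = mulS g f := by
  ext x; simp only [mulS_apply]; ring

lemma lap_mulS (f g : 𝓢(V n, ℝ)) :
    lap (mulS f g) = mulS (lap f) g + mulS f (lap g) + (2:ℝ) • ∑ k, mulS (dd (ee k) f) (dd (ee k) g) := by
  ext x
  simp only [add_apply', smul_apply', mulS_apply, lap, sum_apply', dd_mulS, dd_add]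
  rw [Finset.sum_mul, Finset.mul_sum, Finset.mul_sum, ← Finset.sum_add_distrib,
    ← Finset.sum_add_distrib]
  exact Finset.sum_congr rfl fun k _ => by ring

lemma Lam_zero : Lam (0 : 𝓢(V n, ℝ)) = 0 := by
  have := Lam_sub (0 : 𝓢(V n, ℝ)) 0
  simpa using this

lemma Lam_sum {ι : Type} (s : Finset ι) (f : ι → 𝓢(V n, ℝ)) :
    Lam (∑ i ∈ s, f i) = ∑ i ∈ s, Lam (f i) := by
  classical
  induction s using Finset.induction_on with
  | empty => simp [Lam_zero]
  | insert i s hi ih => rw [Finset.sum_insert hi, Finset.sum_insert hi, Lam_add, ih]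

/-! ### the nonlinear terms -/

/-- the (negative of the) tangential part -/
noncomputable def BN (w w' : Idx n → 𝓢(V n, ℝ)) (i : Fin n) : 𝓢(V n, ℝ) :=
  - Lam (∑ J, mulS (lap (w J)) (dd (ee i) (w' J)))

/-- the integrand of the second part -/
noncomputable def bm (f g : 𝓢(V n, ℝ)) (i j : Fin n) : 𝓢(V n, ℝ) :=
  mulS (dd (ee i) f) (dd (ee j) g) + (2:ℝ) • mulS (lap f) (dd (ee i) (dd (ee j) g))
    - (2:ℝ) • ∑ k, mulS (dd (ee k) (dd (ee i) f)) (dd (ee k) (dd (ee j) g))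

/-- the second part -/
noncomputable def BM (w w' : Idx n → 𝓢(V n, ℝ)) (i j : Fin n) : 𝓢(V n, ℝ) :=
  Lam (∑ J, bm (w J) (w' J) i j)

lemma gunther1 (f : 𝓢(V n, ℝ)) (i j : Fin n) :
    mulS (dd (ee i) f) (dd (ee j) f) - lap (mulS (dd (ee i) f) (dd (ee j) f)) =
      - dd (ee i) (mulS (lap f) (dd (ee j) f)) - dd (ee j) (mulS (lap f) (dd (ee i) f))
        + bm f f i j := by
  rw [lap_mulS, dd_mulS, dd_mulS, dd_lap, dd_lap, dd_comm (ee j) (ee i) f]
  unfold bm
  ext x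
  simp only [add_apply', sub_apply', smul_apply', neg_apply', mulS_apply]
  ring

lemma gunther (w : Idx n → 𝓢(V n, ℝ)) (i j : Fin n) :
    ∑ J, mulS (dd (ee i) (w J)) (dd (ee j) (w J)) =
      dd (ee i) (BN w w j) + dd (ee j) (BN w w i) + BM w w i j := by
  unfold BN BM
  rw [Lam_sum, Lam_sum, Lam_sum]
  rw [dd_neg, dd_neg, dd_sum, dd_sum]
  simp only [dd_Lam]
  rw [← Finset.sum_neg_distrib, ← Finset.sum_neg_distrib, ← Finset.sum_add_distrib,
    ← Finset.sum_add_distrib]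
  refine Finset.sum_congr rfl fun J _ => ?_
  rw [← Lam_neg, ← Lam_neg, ← Lam_add, ← Lam_add, ← sub_eq_add_neg, ← gunther1, Lam_sub_lap]

lemma bm_symm (f : 𝓢(V n, ℝ)) (i j : Fin n) : bm f f i j = bm f f j i := by
  unfold bm
  rw [dd_comm (ee i) (ee j) f, mulS_comm (dd (ee i) f)]
  congr 2
  exact Finset.sum_congr rfl fun k _ => mulS_comm _ _

lemma BM_symm (w : Idx n → 𝓢(V n, ℝ)) (i j : Fin n) : BM w w i j = BM w w j i := by
  unfold BM
  congr 1
  exact Finset.sum_congr rfl fun J _ => bm_symm _ _ _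

/-! ### solving the linearised system -/

/-- the normal coefficients -/
noncomputable def al (S : Fin n → Fin n → 𝓢(V n, ℝ)) : Fin n ⊕ (Fin n × Fin n) → 𝓢(V n, ℝ)
  | Sum.inl i => - ∑ j, S i j
  | Sum.inr p => (1/2 : ℝ) • S p.1 p.2

/-- the tangential coefficients -/
noncomputable def be (Nv : Fin n → 𝓢(V n, ℝ)) : Fin n ⊕ (Fin n × Fin n) → 𝓢(V n, ℝ)
  | Sum.inl i => - Nv i
  | Sum.inr _ => 0

/-- the solution of the linearised system -/
noncomputable def asm (Nv : Fin n → 𝓢(V n, ℝ)) (S : Fin n → Fin n → 𝓢(V n, ℝ)) :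
    Idx n → 𝓢(V n, ℝ) := fun J =>
  if J.2 then sinM (freq J.1) (al S J.1) + cosM (freq J.1) (be Nv J.1)
  else cosM (freq J.1) (al S J.1) - sinM (freq J.1) (be Nv J.1)

/-- first derivatives of the reference map -/
lemma hasFDerivAt_uu (J : Idx n) (x : V n) :
    HasFDerivAt (uu J) ((if J.2 then Real.cos ⟪freq J.1, x⟫_ℝ else - Real.sin ⟪freq J.1, x⟫_ℝ) •
      (innerSL ℝ (freq J.1))) x := by
  have h1 : HasFDerivAt (fun x : V n => ⟪freq J.1, x⟫_ℝ) (innerSL ℝ (freq J.1)) x :=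
    (innerSL ℝ (freq J.1)).hasFDerivAt
  unfold uu
  by_cases hJ : J.2
  · simp only [hJ, if_true]
    exact h1.sin
  · simp only [hJ]
    exact h1.cos

lemma fderiv_uu (J : Idx n) (x a : V n) :
    fderiv ℝ (uu J) x a = (if J.2 then Real.cos ⟪freq J.1, x⟫_ℝ else - Real.sin ⟪freq J.1, x⟫_ℝ) *
      ⟪freq J.1, a⟫_ℝ := by
  rw [(hasFDerivAt_uu J x).fderiv]
  rfl

end Pool.Agent.TH602
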