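import Pool.Agent.TH602.A4

set_option autoImplicit false

open scoped ContDiff InnerProductSpace SchwartzMap FourierTransform LineDeriv Laplacian Convolution
open MeasureTheory SchwartzMap Real

namespace Pool.Agent.TH602

variable {n : ℕ}

lemma sum_Idx (f : Idx n → ℝ) : ∑ J, f J = ∑ κ, (f (κ, true) + f (κ, false)) := by
  rw [Fintype.sum_prod_type]
  simp only [Fintype.sum_bool]

lemma inner_freq_ee (κ : Fin n ⊕ (Fin n × Fin n)) (i : Fin n) : ⟪freq κ, ee i⟫_ℝ = freq κ i :=
  inner_ee _ _

lemma key1 (Nv : Fin n → 𝓢(V n, ℝ)) (S : Fin n → Fin n → 𝓢(V n, ℝ)) (x : V n) (i : Fin n) :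
    ∑ J, fderiv ℝ (uu J) x (ee i) * asm Nv S J x = - Nv i x := by
  rw [sum_Idx]
  have h1 : ∀ κ : Fin n ⊕ (Fin n × Fin n), fderiv ℝ (uu (κ, true)) x (ee i) * asm Nv S (κ, true) x +
      fderiv ℝ (uu (κ, false)) x (ee i) * asm Nv S (κ, false) x = freq κ i * be Nv κ x := by
    intro κ
    rw [fderiv_uu, fderiv_uu]
    simp only [inner_freq_ee, asm, if_true, add_apply', sub_apply', sinM_apply, cosM_apply,
      Bool.false_eq_true, if_false]
    have := Real.sin_sq_add_cos_sq ⟪freq κ, x⟫_ℝ
    linear_combination (freq κ i * be Nv κ x) * this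
  rw [Finset.sum_congr rfl fun κ _ => h1 κ, Fintype.sum_sum_type]
  simp only [be, freq, neg_apply', zero_apply, mul_zero, Finset.sum_const_zero, add_zero]
  rw [Finset.sum_eq_single i]
  · simp
  · intro j _ hj
    simp [hj.symm]
  · simp

lemma key2 (Nv : Fin n → 𝓢(V n, ℝ)) (S : Fin n → Fin n → 𝓢(V n, ℝ)) (hS : ∀ i j, S i j = S j i)
    (x : V n) (i j : Fin n) :
    ∑ J : Idx n, (freq J.1 i * freq J.1 j * uu J x) * asm Nv S J x = S i j x := by
  rw [sum_Idx]
  have h1 : ∀ κ : Fin n ⊕ (Fin n × Fin n), (freq κ i * freq κ j * uu (κ, true) x) * asm Nv S (κ, true) x +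
      (freq κ i * freq κ j * uu (κ, false) x) * asm Nv S (κ, false) x =
        freq κ i * freq κ j * al S κ x := by
    intro κ
    simp only [uu, asm, if_true, add_apply', sub_apply', sinM_apply, cosM_apply,
      Bool.false_eq_true, if_false]
    have := Real.sin_sq_add_cos_sq ⟪freq κ, x⟫_ℝ
    linear_combination (freq κ i * freq κ j * al S κ x) * this
  rw [Finset.sum_congr rfl fun κ _ => h1 κ, Fintype.sum_sum_type]
  simp only [al, freq, neg_apply', smul_apply', sum_apply']
  rw [Fintype.sum_prod_type]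
  have e1 : ∀ k l : Fin n, (EuclideanSpace.single k (1:ℝ) : V n) l = if l = k then 1 else 0 := by
    intro k l
    simp
  simp only [PiLp.add_apply, e1]
  have e2 : ∀ k l : Fin n, ((if i = k then (1:ℝ) else 0) + if i = l then 1 else 0) *
      ((if j = k then 1 else 0) + if j = l then 1 else 0) * (1 / 2 * (S k l) x) =
      (1/2) * ((if i = k then (if j = k then S k l x else 0) else 0)
        + (if i = k then (if j = l then S k l x else 0) else 0)
        + (if i = l then (if j = k then S k l x else 0) else 0)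
        + (if i = l then (if j = l then S k l x else 0) else 0)) := by
    intro k l
    split_ifs <;> ring
  simp only [e2]
  have e3 : ∀ k : Fin n, ((if i = k then (1:ℝ) else 0) * if j = k then 1 else 0) *
      -∑ l, S k l x = - (if i = k then (if j = k then ∑ l, S k l x else 0) else 0) := by
    intro k
    split_ifs <;> ring
  simp only [e3]
  simp only [← Finset.mul_sum, Finset.sum_add_distrib, Finset.sum_neg_distrib]
  have f1 : ∑ k : Fin n, ∑ l : Fin n, (if i = k then (if j = k then S k l x else 0) else 0) =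
      if j = i then ∑ l, S i l x else 0 := by
    rw [Finset.sum_eq_single i]
    · split_ifs <;> simp_all
    · intro k _ hk
      simp [hk.symm]
    · simp
  have f2 : ∑ k : Fin n, ∑ l : Fin n, (if i = k then (if j = l then S k l x else 0) else 0) =
      S i j x := by
    rw [Finset.sum_eq_single i]
    · simp
    · intro k _ hk
      simp [hk.symm]
    · simp
  have f3 : ∑ k : Fin n, ∑ l : Fin n, (if i = l then (if j = k then S k l x else 0) else 0) =
      S i j x := by
    rw [Finset.sum_eq_single j]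
    · simp [hS i j]
    · intro k _ hk
      simp [hk.symm]
    · simp
  have f4 : ∑ k : Fin n, ∑ l : Fin n, (if i = l then (if j = l then S k l x else 0) else 0) =
      if j = i then ∑ l, S i l x else 0 := by
    have : ∀ k : Fin n, ∑ l : Fin n, (if i = l then (if j = l then S k l x else 0) else 0) =
        if j = i then S i k x else 0 := by
      intro k
      rw [Finset.sum_eq_single i]
      · simp [hS i k]
      · intro l _ hl
        simp [hl.symm]
      · simp
    rw [Finset.sum_congr rfl fun k _ => this k]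
    split_ifs <;> simp
  have f5 : ∑ k : Fin n, (if i = k then (if j = k then ∑ l, S k l x else 0) else 0) =
      if j = i then ∑ l, S i l x else 0 := by
    rw [Finset.sum_eq_single i]
    · simp
    · intro k _ hk
      simp [hk.symm]
    · simp
  rw [f1, f2, f3, f4, f5]
  ring

lemma hasFDerivAt_fderiv_uu (J : Idx n) (x : V n) (i j : Fin n) :
    HasFDerivAt (fun x => fderiv ℝ (uu J) x (ee i))
      (-(uu J x * freq J.1 i) • innerSL ℝ (freq J.1)) x := by
  have h0 : (fun x => fderiv ℝ (uu J) x (ee i)) = fun x : V n =>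
      (if J.2 then Real.cos ⟪freq J.1, x⟫_ℝ else - Real.sin ⟪freq J.1, x⟫_ℝ) * freq J.1 i := by
    funext x
    rw [fderiv_uu, inner_freq_ee]
  rw [h0]
  have h1 : HasFDerivAt (fun x : V n => ⟪freq J.1, x⟫_ℝ) (innerSL ℝ (freq J.1)) x :=
    (innerSL ℝ (freq J.1)).hasFDerivAt
  unfold uu
  by_cases hJ : J.2
  · simp only [hJ, if_true]
    refine (h1.cos.mul_const (freq J.1 i)).congr_fderiv ?_
    ext v
    simp only [smul_apply, smul_eq_mul]
    ring
  · simp only [hJ]
    refine (h1.sin.neg.mul_const (freq J.1 i)).congr_fderiv ?_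
    ext v
    simp only [smul_apply, smul_eq_mul, neg_apply, Bool.false_eq_true, if_false]
    ring

lemma key3 (Nv : Fin n → 𝓢(V n, ℝ)) (S : Fin n → Fin n → 𝓢(V n, ℝ)) (hS : ∀ i j, S i j = S j i)
    (x : V n) (i j : Fin n) :
    ∑ J : Idx n, fderiv ℝ (uu J) x (ee i) * dd (ee j) (asm Nv S J) x =
      - dd (ee j) (Nv i) x + S i j x := by
  have h1 : HasFDerivAt (fun x => ∑ J : Idx n, fderiv ℝ (uu J) x (ee i) * asm Nv S J x)
      (∑ J : Idx n, (fderiv ℝ (uu J) x (ee i) • fderiv ℝ (asm Nv S J) x +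
        asm Nv S J x • (-(uu J x * freq J.1 i) • innerSL ℝ (freq J.1)))) x := by
    refine HasFDerivAt.fun_sum fun J _ => ?_
    exact (hasFDerivAt_fderiv_uu J x i j).mul (asm Nv S J).differentiableAt.hasFDerivAt
  have h2 : (fun x => ∑ J : Idx n, fderiv ℝ (uu J) x (ee i) * asm Nv S J x) = fun x => - Nv i x := by
    funext y
    exact key1 Nv S y i
  rw [h2] at h1
  have h3 : HasFDerivAt (fun x => - Nv i x) (- fderiv ℝ (Nv i) x) x :=
    (Nv i).differentiableAt.hasFDerivAt.neg
  have h4 := congrArg (fun L : V n →L[ℝ] ℝ => L (ee j)) (h1.unique h3)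
  simp only [sum_apply, add_apply, smul_apply, neg_apply, smul_eq_mul, innerSL_apply_apply, inner_freq_ee] at h4
  rw [Finset.sum_add_distrib] at h4
  have h5 := key2 Nv S hS x i j
  have h6 : ∑ J : Idx n, asm Nv S J x * (-(uu J x * freq J.1 i) * freq J.1 j) = - S i j x := by
    rw [← h5, ← Finset.sum_neg_distrib]
    exact Finset.sum_congr rfl fun J _ => by ring
  rw [h6] at h4
  simp only [dd_apply]
  linarith

/-! ### the iteration map -/

/-- the second coefficient of the iteration -/
noncomputable def SS (h : Fin n → Fin n → 𝓢(V n, ℝ)) (t : ℝ) (w : Idx n → 𝓢(V n, ℝ))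
    (i j : Fin n) : 𝓢(V n, ℝ) := (1/2 : ℝ) • (t • h i j - BM w w i j)

/-- the iteration map -/
noncomputable def TT (h : Fin n → Fin n → 𝓢(V n, ℝ)) (t : ℝ) (w : Idx n → 𝓢(V n, ℝ)) :
    Idx n → 𝓢(V n, ℝ) := asm (BN w w) (SS h t w)

lemma star (h : Fin n → Fin n → 𝓢(V n, ℝ)) (hs : ∀ i j, h i j = h j i) (t : ℝ)
    (w : Idx n → 𝓢(V n, ℝ)) (x : V n) (i j : Fin n) :
    ∑ J : Idx n, (fderiv ℝ (uu J) x (ee i) * fderiv ℝ (TT h t w J) x (ee j) +
      fderiv ℝ (uu J) x (ee j) * fderiv ℝ (TT h t w J) x (ee i) +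
      fderiv ℝ (w J) x (ee i) * fderiv ℝ (w J) x (ee j)) = t * h i j x := by
  have hS : ∀ i j, SS h t w i j = SS h t w j i := by
    intro i j
    unfold SS
    rw [hs, BM_symm]
  have k1 := key3 (BN w w) (SS h t w) hS x i j
  have k2 := key3 (BN w w) (SS h t w) hS x j i
  have k3 := congrArg (fun F : 𝓢(V n, ℝ) => F x) (gunther w i j)
  simp only [sum_apply', add_apply', mulS_apply] at k3
  rw [Finset.sum_add_distrib, Finset.sum_add_distrib]
  simp only [dd_apply] at k1 k2 k3
  show ∑ J : Idx n, fderiv ℝ (uu J) x (ee i) * fderiv ℝ (asm (BN w w) (SS h t w) J) x (ee j) +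
    ∑ J : Idx n, fderiv ℝ (uu J) x (ee j) * fderiv ℝ (asm (BN w w) (SS h t w) J) x (ee i) + _ = _
  rw [k1, k2, k3, hS j i]
  simp only [SS, smul_apply', sub_apply']
  ring

end Pool.Agent.TH602
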