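import Pool.Agent.TH602.A5

set_option autoImplicit false

open scoped ContDiff InnerProductSpace SchwartzMap FourierTransform LineDeriv Laplacian Convolution
open MeasureTheory SchwartzMap Real

namespace Pool.Agent.TH602

variable {n : ℕ}

/-- good weights -/
structure Good (q : V n → ℝ) : Prop where
  wt : Wt q
  sub : ∀ ξ η, q (ξ + η) ≤ q ξ * q η
  one : ∀ ξ, 1 ≤ q ξ
  small : ∀ k : V n, ‖k‖ ≤ 1 → q k ≤ 2

lemma norm_ee (i : Fin n) : ‖ee i‖ = 1 := by simp [ee]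

lemma norm_freq_le (κ : Fin n ⊕ (Fin n × Fin n)) : ‖freq κ‖ ≤ 2 := by
  rcases κ with i | p
  · simp [freq]
  · simp only [freq]
    refine (norm_add_le _ _).trans ?_
    simp
    norm_num

lemma norm_k_le (κ : Fin n ⊕ (Fin n × Fin n)) : ‖(2 * π)⁻¹ • freq κ‖ ≤ 1 := by
  rw [norm_smul, norm_inv, Real.norm_of_nonneg (by positivity : (0:ℝ) ≤ 2 * π)]
  have h1 := norm_freq_le κ
  have h2 : (2:ℝ) ≤ 2 * π := by linarith [Real.pi_gt_three]
  rw [inv_mul_le_iff₀ (by positivity)]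
  linarith

lemma sg_shift (ξ k : V n) (hk : ‖(2 * π) • k‖ ≤ 2) : sg (ξ + k) ≤ 9 * sg ξ := by
  unfold sg
  have h1 : ‖(2 * π) • k‖ = 2 * π * ‖k‖ := by
    rw [norm_smul, Real.norm_of_nonneg (by positivity : (0:ℝ) ≤ 2 * π)]
  rw [h1] at hk
  have h2 : 2 * π * ‖ξ + k‖ ≤ 2 * π * ‖ξ‖ + 2 := by
    calc 2 * π * ‖ξ + k‖ ≤ 2 * π * (‖ξ‖ + ‖k‖) := by gcongr; exact norm_add_le _ _
      _ = 2 * π * ‖ξ‖ + 2 * π * ‖k‖ := by ring
      _ ≤ _ := by linarith
  have h3 : (2 * π * ‖ξ + k‖) ^ 2 ≤ (2 * π * ‖ξ‖ + 2) ^ 2 := by gcongr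
  nlinarith [sq_nonneg (2 * π * ‖ξ‖ - 2)]

lemma Good.shift {q : V n → ℝ} (hq : Good q) (k : V n) (hk : ‖(2 * π) • k‖ ≤ 2) (ξ : V n) :
    qs q (ξ + k) ≤ 18 * qs q ξ := by
  have h1 : ‖(2 * π) • k‖ = 2 * π * ‖k‖ := by
    rw [norm_smul, Real.norm_of_nonneg (by positivity : (0:ℝ) ≤ 2 * π)]
  have h2 : ‖k‖ ≤ 1 := by
    rw [h1] at hk
    have := Real.pi_gt_three
    have := norm_nonneg k
    nlinarith
  unfold qs
  have h3 := hq.sub ξ k
  have h4 := hq.small k h2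
  have h5 := sg_shift ξ k hk
  have h6 := hq.one ξ
  have h7 := one_le_sg ξ
  have h8 := one_le_sg (ξ + k)
  have h9 : q (ξ + k) ≤ q ξ * 2 := h3.trans (by gcongr)
  calc q (ξ + k) * sg (ξ + k) ≤ (q ξ * 2) * (9 * sg ξ) := by gcongr
    _ = 18 * (q ξ * sg ξ) := by ring

lemma norm_two_pi_k (κ : Fin n ⊕ (Fin n × Fin n)) : ‖(2 * π) • ((2 * π)⁻¹ • freq κ)‖ ≤ 2 := by
  rw [smul_smul, mul_inv_cancel₀ (by positivity), one_smul]
  exact norm_freq_le κ

lemma N_cosM_freq {q : V n → ℝ} (hq : Good q) (κ : Fin n ⊕ (Fin n × Fin n)) (f : 𝓢(V n, ℝ)) :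
    N (qs q) (cosM (freq κ) f) ≤ 18 * N (qs q) f := by
  refine N_cosM_le hq.wt.qs (fun ξ => ?_) (fun ξ => ?_) f
  · exact hq.shift _ (norm_two_pi_k κ) ξ
  · refine hq.shift _ ?_ ξ
    rw [smul_neg, norm_neg]
    exact norm_two_pi_k κ

lemma N_sinM_freq {q : V n → ℝ} (hq : Good q) (κ : Fin n ⊕ (Fin n × Fin n)) (f : 𝓢(V n, ℝ)) :
    N (qs q) (sinM (freq κ) f) ≤ 18 * N (qs q) f := by
  refine N_sinM_le hq.wt.qs (fun ξ => ?_) (fun ξ => ?_) f
  · exact hq.shift _ (norm_two_pi_k κ) ξ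
  · refine hq.shift _ ?_ ξ
    rw [smul_neg, norm_neg]
    exact norm_two_pi_k κ

/-- norm of a vector -/
noncomputable def NV (q : V n → ℝ) (w : Idx n → 𝓢(V n, ℝ)) : ℝ := ∑ J, N (qs q) (w J)

/-- norm of a matrix -/
noncomputable def NM (q : V n → ℝ) (S : Fin n → Fin n → 𝓢(V n, ℝ)) : ℝ :=
  ∑ i, ∑ j, N (qs q) (S i j)

/-- norm of a vector field -/
noncomputable def NF (q : V n → ℝ) (v : Fin n → 𝓢(V n, ℝ)) : ℝ := ∑ i, N (qs q) (v i)

lemma NV_nonneg {q : V n → ℝ} (hq : Good q) (w : Idx n → 𝓢(V n, ℝ)) : 0 ≤ NV q w :=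
  Finset.sum_nonneg fun _ _ => N_nonneg hq.wt.qs _

lemma NM_nonneg {q : V n → ℝ} (hq : Good q) (S : Fin n → Fin n → 𝓢(V n, ℝ)) : 0 ≤ NM q S :=
  Finset.sum_nonneg fun _ _ => Finset.sum_nonneg fun _ _ => N_nonneg hq.wt.qs _

lemma NF_nonneg {q : V n → ℝ} (hq : Good q) (v : Fin n → 𝓢(V n, ℝ)) : 0 ≤ NF q v :=
  Finset.sum_nonneg fun _ _ => N_nonneg hq.wt.qs _

lemma N_al_le {q : V n → ℝ} (hq : Good q) (S : Fin n → Fin n → 𝓢(V n, ℝ))
    (κ : Fin n ⊕ (Fin n × Fin n)) : N (qs q) (al S κ) ≤ NM q S := by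
  have h0 : ∀ i j, 0 ≤ N (qs q) (S i j) := fun i j => N_nonneg hq.wt.qs _
  rcases κ with i | p
  · simp only [al]
    rw [N_neg]
    refine (N_sum_le hq.wt.qs _ _).trans ?_
    exact Finset.single_le_sum (f := fun i => ∑ j, N (qs q) (S i j))
      (fun i _ => Finset.sum_nonneg fun j _ => h0 i j) (Finset.mem_univ i)
  · simp only [al]
    rw [N_smul]
    have h1 : N (qs q) (S p.1 p.2) ≤ ∑ j, N (qs q) (S p.1 j) :=
      Finset.single_le_sum (f := fun j => N (qs q) (S p.1 j)) (fun j _ => h0 p.1 j)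
        (Finset.mem_univ p.2)
    have h2 : ∑ j, N (qs q) (S p.1 j) ≤ NM q S :=
      Finset.single_le_sum (f := fun i => ∑ j, N (qs q) (S i j))
        (fun i _ => Finset.sum_nonneg fun j _ => h0 i j) (Finset.mem_univ p.1)
    have h3 := h0 p.1 p.2
    rw [abs_of_pos (by norm_num : (0:ℝ) < 1/2)]
    linarith

lemma N_be_le {q : V n → ℝ} (hq : Good q) (v : Fin n → 𝓢(V n, ℝ))
    (κ : Fin n ⊕ (Fin n × Fin n)) : N (qs q) (be v κ) ≤ NF q v := by
  rcases κ with i | p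
  · simp only [be]
    rw [N_neg]
    exact Finset.single_le_sum (f := fun i => N (qs q) (v i))
      (fun i _ => N_nonneg hq.wt.qs _) (Finset.mem_univ i)
  · simp only [be]
    rw [N_zero]
    exact NF_nonneg hq v

/-- number of components -/
noncomputable def cI (n : ℕ) : ℝ := (Fintype.card (Idx n) : ℝ)

lemma NV_asm_le {q : V n → ℝ} (hq : Good q) (v : Fin n → 𝓢(V n, ℝ))
    (S : Fin n → Fin n → 𝓢(V n, ℝ)) : NV q (asm v S) ≤ cI n * (18 * (NM q S + NF q v)) := by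
  have h1 : ∀ J : Idx n, N (qs q) (asm v S J) ≤ 18 * (NM q S + NF q v) := by
    intro J
    unfold asm
    split_ifs
    · refine (N_add_le hq.wt.qs _ _).trans ?_
      have a1 := N_sinM_freq hq J.1 (al S J.1)
      have a2 := N_cosM_freq hq J.1 (be v J.1)
      have a3 := N_al_le hq S J.1
      have a4 := N_be_le hq v J.1
      linarith
    · refine (N_sub_le hq.wt.qs _ _).trans ?_
      have a1 := N_cosM_freq hq J.1 (al S J.1)
      have a2 := N_sinM_freq hq J.1 (be v J.1)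
      have a3 := N_al_le hq S J.1
      have a4 := N_be_le hq v J.1
      linarith
  unfold NV
  refine (Finset.sum_le_sum fun J _ => h1 J).trans ?_
  rw [Finset.sum_const, nsmul_eq_mul]
  rfl

lemma asm_sub (v v' : Fin n → 𝓢(V n, ℝ)) (S S' : Fin n → Fin n → 𝓢(V n, ℝ)) :
    asm v S - asm v' S' = asm (v - v') (S - S') := by
  have h1 : ∀ κ, al (S - S') κ = al S κ - al S' κ := by
    intro κ
    rcases κ with i | p
    · simp only [al, Pi.sub_apply, Finset.sum_sub_distrib]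
      abel
    · simp only [al, Pi.sub_apply, smul_sub]
  have h2 : ∀ κ, be (v - v') κ = be v κ - be v' κ := by
    intro κ
    rcases κ with i | p
    · simp only [be, Pi.sub_apply]
      abel
    · simp only [be, sub_zero]
  funext J
  simp only [asm, Pi.sub_apply, h1, h2, map_sub]
  split_ifs <;> abel

lemma N_sum_mul_le {q : V n → ℝ} (hq : Good q) (F G : Idx n → 𝓢(V n, ℝ))
    (w w' : Idx n → 𝓢(V n, ℝ)) {c : ℝ} (hc : 0 ≤ c)
    (h : ∀ J, N q (mulS (F J) (G J)) ≤ c * (N (qs q) (w J) * N (qs q) (w' J))) :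
    N q (∑ J, mulS (F J) (G J)) ≤ c * (NV q w * NV q w') := by
  refine (N_sum_le hq.wt _ _).trans ?_
  refine (Finset.sum_le_sum fun J _ => h J).trans ?_
  rw [← Finset.mul_sum]
  gcongr
  unfold NV
  rw [Finset.sum_mul]
  refine Finset.sum_le_sum fun J _ => ?_
  have h0 : ∀ J, 0 ≤ N (qs q) (w' J) := fun J => N_nonneg hq.wt.qs _
  exact mul_le_mul_of_nonneg_left (Finset.single_le_sum (f := fun J => N (qs q) (w' J))
    (fun J _ => h0 J) (Finset.mem_univ J)) (N_nonneg hq.wt.qs _)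

lemma N_BN_le {q : V n → ℝ} (hq : Good q) (w w' : Idx n → 𝓢(V n, ℝ)) (i : Fin n) :
    N (qs q) (BN w w' i) ≤ NV q w * NV q w' := by
  unfold BN
  rw [N_neg]
  refine (N_Lam_le hq.wt _).trans ?_
  have := N_sum_mul_le hq (fun J => lap (w J)) (fun J => dd (ee i) (w' J)) w w' zero_le_one
    (fun J => ?_)
  · rwa [one_mul] at this
  · rw [one_mul]
    refine (N_mul_le hq.wt hq.sub _ _).trans ?_
    have h1 := N_lap_le hq.wt (w J)
    have h2 := N_dd_le hq.wt (ee i) (w' J)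
    rw [norm_ee, one_mul] at h2
    exact mul_le_mul h1 h2 (N_nonneg hq.wt _) (N_nonneg hq.wt.qs _)

lemma N_bm_le {q : V n → ℝ} (hq : Good q) (f g : 𝓢(V n, ℝ)) (i j : Fin n) :
    N q (bm f g i j) ≤ (3 + 2 * n) * (N (qs q) f * N (qs q) g) := by
  unfold bm
  have hm := fun f g : 𝓢(V n, ℝ) => N_mul_le hq.wt hq.sub f g
  have hd : ∀ (i : Fin n) (f : 𝓢(V n, ℝ)), N q (dd (ee i) f) ≤ N (qs q) f := by
    intro i f
    have := N_dd_le hq.wt (ee i) f
    rwa [norm_ee, one_mul] at this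
  have hdd : ∀ (i j : Fin n) (f : 𝓢(V n, ℝ)), N q (dd (ee i) (dd (ee j) f)) ≤ N (qs q) f := by
    intro i j f
    have := N_ddd_le hq.wt (ee i) (ee j) f
    rwa [norm_ee, norm_ee, one_mul, one_mul] at this
  have hn := fun f : 𝓢(V n, ℝ) => N_nonneg hq.wt f
  have hn' := fun f : 𝓢(V n, ℝ) => N_nonneg hq.wt.qs f
  set P := N (qs q) f * N (qs q) g with hP
  have e1 : N q (mulS (dd (ee i) f) (dd (ee j) g)) ≤ P :=
    (hm _ _).trans (mul_le_mul (hd _ _) (hd _ _) (hn _) (hn' _))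
  have e2 : N q (mulS (lap f) (dd (ee i) (dd (ee j) g))) ≤ P :=
    (hm _ _).trans (mul_le_mul (N_lap_le hq.wt _) (hdd _ _ _) (hn _) (hn' _))
  have e3 : N q (∑ k, mulS (dd (ee k) (dd (ee i) f)) (dd (ee k) (dd (ee j) g))) ≤ n * P := by
    refine (N_sum_le hq.wt _ _).trans ?_
    refine (Finset.sum_le_sum fun k _ => (hm _ _).trans
      (mul_le_mul (hdd _ _ _) (hdd _ _ _) (hn _) (hn' _))).trans ?_
    rw [Finset.sum_const, nsmul_eq_mul, Finset.card_univ, Fintype.card_fin]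
  refine (N_sub_le hq.wt _ _).trans ?_
  have e4 := N_add_le hq.wt (mulS (dd (ee i) f) (dd (ee j) g))
    ((2:ℝ) • mulS (lap f) (dd (ee i) (dd (ee j) g)))
  rw [N_smul, abs_of_pos (by norm_num : (0:ℝ) < 2)] at e4
  rw [N_smul, abs_of_pos (by norm_num : (0:ℝ) < 2)]
  linarith

lemma N_BM_le {q : V n → ℝ} (hq : Good q) (w w' : Idx n → 𝓢(V n, ℝ)) (i j : Fin n) :
    N (qs q) (BM w w' i j) ≤ (3 + 2 * n) * (NV q w * NV q w') := by
  unfold BM
  refine (N_Lam_le hq.wt _).trans ?_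
  refine (N_sum_le hq.wt _ _).trans ?_
  refine (Finset.sum_le_sum fun J _ => N_bm_le hq (w J) (w' J) i j).trans ?_
  rw [← Finset.mul_sum]
  gcongr
  unfold NV
  rw [Finset.sum_mul]
  refine Finset.sum_le_sum fun J _ => ?_
  have h0 : ∀ J, 0 ≤ N (qs q) (w' J) := fun J => N_nonneg hq.wt.qs _
  exact mul_le_mul_of_nonneg_left (Finset.single_le_sum (f := fun J => N (qs q) (w' J))
    (fun J _ => h0 J) (Finset.mem_univ J)) (N_nonneg hq.wt.qs _)

lemma dd_sub' (m : V n) (f g : 𝓢(V n, ℝ)) : dd m (f - g) = dd m f - dd m g := dd_sub m f g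

lemma BN_sub (w w' : Idx n → 𝓢(V n, ℝ)) (i : Fin n) :
    BN w w i - BN w' w' i = BN (w - w') w i + BN w' (w - w') i := by
  unfold BN
  rw [← neg_add, ← Lam_add, neg_sub_neg, ← Lam_sub, ← Lam_neg]
  congr 1
  rw [← Finset.sum_add_distrib, ← Finset.sum_sub_distrib, ← Finset.sum_neg_distrib]
  refine Finset.sum_congr rfl fun J _ => ?_
  rw [Pi.sub_apply, lap_sub, dd_sub, mulS_sub_left, mulS_sub_right]
  abel

lemma bm_sub_left (f f' g : 𝓢(V n, ℝ)) (i j : Fin n) : bm (f - f') g i j = bm f g i j - bm f' g i j := by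
  unfold bm
  ext x
  simp only [add_apply', sub_apply', smul_apply', mulS_apply, sum_apply', dd_sub, lap_sub]
  have : ∑ k, ((dd (ee k) (dd (ee i) f)) x - (dd (ee k) (dd (ee i) f')) x) *
      (dd (ee k) (dd (ee j) g)) x = ∑ k, (dd (ee k) (dd (ee i) f)) x * (dd (ee k) (dd (ee j) g)) x -
      ∑ k, (dd (ee k) (dd (ee i) f')) x * (dd (ee k) (dd (ee j) g)) x := by
    rw [← Finset.sum_sub_distrib]
    exact Finset.sum_congr rfl fun k _ => by ring
  rw [this]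
  ring

lemma bm_sub_right (f g g' : 𝓢(V n, ℝ)) (i j : Fin n) : bm f (g - g') i j = bm f g i j - bm f g' i j := by
  unfold bm
  ext x
  simp only [add_apply', sub_apply', smul_apply', mulS_apply, sum_apply', dd_sub, lap_sub]
  have : ∑ k, (dd (ee k) (dd (ee i) f)) x * ((dd (ee k) (dd (ee j) g)) x -
      (dd (ee k) (dd (ee j) g')) x) = ∑ k, (dd (ee k) (dd (ee i) f)) x * (dd (ee k) (dd (ee j) g)) x -
      ∑ k, (dd (ee k) (dd (ee i) f)) x * (dd (ee k) (dd (ee j) g')) x := by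
    rw [← Finset.sum_sub_distrib]
    exact Finset.sum_congr rfl fun k _ => by ring
  rw [this]
  ring

lemma BM_sub (w w' : Idx n → 𝓢(V n, ℝ)) (i j : Fin n) :
    BM w w i j - BM w' w' i j = BM (w - w') w i j + BM w' (w - w') i j := by
  unfold BM
  rw [← Lam_add, ← Lam_sub]
  congr 1
  rw [← Finset.sum_add_distrib, ← Finset.sum_sub_distrib]
  refine Finset.sum_congr rfl fun J _ => ?_
  rw [Pi.sub_apply, bm_sub_left, bm_sub_right]
  abel

end Pool.Agent.TH602
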