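import Pool.Agent.TH602.A6

set_option autoImplicit false

open scoped ContDiff InnerProductSpace SchwartzMap FourierTransform LineDeriv Laplacian Convolution
open MeasureTheory SchwartzMap Real

namespace Pool.Agent.TH602

variable {n : ℕ}

lemma NV_TT_le (n : ℕ) : ∃ C : ℝ, 1 ≤ C ∧ ∀ q : V n → ℝ, Good q →
    (∀ h t w, 0 ≤ t → NV q (TT h t w) ≤ C * (t * NM q h + NV q w ^ 2)) ∧
    (∀ h t w w', NV q (TT h t w - TT h t w') ≤ C * ((NV q w + NV q w') * NV q (w - w'))) := by
  set D : ℝ := 1 + (n:ℝ) ^ 2 * (3 + 2 * n) + n with hD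
  have hc0 : 0 ≤ cI n := by unfold cI; positivity
  refine ⟨1 + cI n * (18 * D), ?_, fun q hq => ⟨fun h t w ht => ?_, fun h t w w' => ?_⟩⟩
  · have : 0 ≤ cI n * (18 * D) := by positivity
    linarith
  · unfold TT
    refine (NV_asm_le hq _ _).trans ?_
    have hw := NV_nonneg hq w
    have hh := NM_nonneg hq h
    have e1 : NF q (BN w w) ≤ n * NV q w ^ 2 := by
      unfold NF
      refine (Finset.sum_le_sum fun i _ => N_BN_le hq w w i).trans ?_
      rw [Finset.sum_const, nsmul_eq_mul, Finset.card_univ, Fintype.card_fin]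
      exact le_of_eq (by ring)
    have e2 : NM q (SS h t w) ≤ (t * NM q h + (n:ℝ) ^ 2 * (3 + 2 * n) * NV q w ^ 2) := by
      have : ∀ i j, N (qs q) (SS h t w i j) ≤ t * N (qs q) (h i j) + (3 + 2 * n) * NV q w ^ 2 := by
        intro i j
        unfold SS
        rw [N_smul, abs_of_pos (by norm_num : (0:ℝ) < 1/2)]
        have a1 := N_sub_le hq.wt.qs (t • h i j) (BM w w i j)
        rw [N_smul, abs_of_nonneg ht] at a1
        have a2 := N_BM_le hq w w i j
        have a3 := N_nonneg hq.wt.qs (t • h i j - BM w w i j)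
        nlinarith
      unfold NM
      refine (Finset.sum_le_sum fun i _ => Finset.sum_le_sum fun j _ => this i j).trans ?_
      simp only [Finset.sum_add_distrib, Finset.sum_const, nsmul_eq_mul, Finset.card_univ,
        Fintype.card_fin, ← Finset.mul_sum]
      exact le_of_eq (by ring)
    have e3 : NM q (SS h t w) + NF q (BN w w) ≤ D * (t * NM q h + NV q w ^ 2) := by
      have b1 : 0 ≤ t * NM q h := mul_nonneg ht hh
      have b2 : 0 ≤ NV q w ^ 2 := by positivity
      have b3 : 0 ≤ (n:ℝ) ^ 2 * (3 + 2 * n) := by positivity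
      have b4 : 0 ≤ (n:ℝ) := by positivity
      have b5 := mul_nonneg b3 b1
      have b6 := mul_nonneg b4 b1
      rw [hD]
      nlinarith
    have b1 : 0 ≤ t * NM q h := mul_nonneg ht hh
    have b2 : 0 ≤ NV q w ^ 2 := by positivity
    calc cI n * (18 * (NM q (SS h t w) + NF q (BN w w)))
        ≤ cI n * (18 * (D * (t * NM q h + NV q w ^ 2))) := by gcongr
      _ = cI n * (18 * D) * (t * NM q h + NV q w ^ 2) := by ring
      _ ≤ _ := by nlinarith
  · unfold TT
    rw [asm_sub]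
    refine (NV_asm_le hq _ _).trans ?_
    have hw := NV_nonneg hq w
    have hw' := NV_nonneg hq w'
    have hww := NV_nonneg hq (w - w')
    set P := (NV q w + NV q w') * NV q (w - w') with hP
    have hP0 : 0 ≤ P := by positivity
    have e1 : NF q (BN w w - BN w' w') ≤ n * P := by
      unfold NF
      have : ∀ i, N (qs q) ((BN w w - BN w' w') i) ≤ P := by
        intro i
        rw [Pi.sub_apply, BN_sub]
        refine (N_add_le hq.wt.qs _ _).trans ?_
        have a1 := N_BN_le hq (w - w') w i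
        have a2 := N_BN_le hq w' (w - w') i
        rw [hP]
        linarith
      refine (Finset.sum_le_sum fun i _ => this i).trans ?_
      rw [Finset.sum_const, nsmul_eq_mul, Finset.card_univ, Fintype.card_fin]
    have e2 : NM q (SS h t w - SS h t w') ≤ (n:ℝ) ^ 2 * (3 + 2 * n) * P := by
      have : ∀ i j, N (qs q) ((SS h t w - SS h t w') i j) ≤ (3 + 2 * n) * P := by
        intro i j
        have e : (SS h t w - SS h t w') i j = (-(1/2:ℝ)) • (BM w w i j - BM w' w' i j) := by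
          simp only [Pi.sub_apply, SS]
          rw [← smul_sub, neg_smul, ← smul_neg]
          congr 1
          abel
        rw [e, N_smul, BM_sub]
        have a0 := N_add_le hq.wt.qs (BM (w - w') w i j) (BM w' (w - w') i j)
        have a1 := N_BM_le hq (w - w') w i j
        have a2 := N_BM_le hq w' (w - w') i j
        have a3 := N_nonneg hq.wt.qs (BM (w - w') w i j + BM w' (w - w') i j)
        rw [abs_neg, abs_of_pos (by norm_num : (0:ℝ) < 1/2)]
        have : (3 + 2 * (n:ℝ)) * P = (3 + 2 * n) * (NV q (w - w') * NV q w) +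
          (3 + 2 * n) * (NV q w' * NV q (w - w')) := by rw [hP]; ring
        linarith
      unfold NM
      refine (Finset.sum_le_sum fun i _ => Finset.sum_le_sum fun j _ => this i j).trans ?_
      simp only [Finset.sum_const, nsmul_eq_mul, Finset.card_univ, Fintype.card_fin]
      exact le_of_eq (by ring)
    have e3 : NM q (SS h t w - SS h t w') + NF q (BN w w - BN w' w') ≤ D * P := by
      rw [hD]
      nlinarith
    calc cI n * (18 * (NM q (SS h t w - SS h t w') + NF q (BN w w - BN w' w')))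
        ≤ cI n * (18 * (D * P)) := by gcongr
      _ = cI n * (18 * D) * P := by ring
      _ ≤ _ := by nlinarith

/-- the iterates -/
noncomputable def wi (h : Fin n → Fin n → 𝓢(V n, ℝ)) (t : ℝ) : ℕ → Idx n → 𝓢(V n, ℝ)
  | 0 => 0
  | (m + 1) => TT h t (wi h t m)

lemma NV_zero (q : V n → ℝ) : NV q (0 : Idx n → 𝓢(V n, ℝ)) = 0 := by
  unfold NV
  simp [N_zero]

lemma wi_bound {C : ℝ} (hC : 1 ≤ C) {q : V n → ℝ} (hq : Good q)
    (h1 : ∀ h t w, 0 ≤ t → NV q (TT h t w) ≤ C * (t * NM q h + NV q w ^ 2))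
    (h2 : ∀ h t w w', NV q (TT h t w - TT h t w') ≤ C * ((NV q w + NV q w') * NV q (w - w')))
    (h : Fin n → Fin n → 𝓢(V n, ℝ)) {t r : ℝ} (ht : 0 ≤ t) (hr : 0 < r) (hCr : C * r ≤ 1 / 4)
    (htr : C * (t * NM q h) ≤ r / 2) (m : ℕ) :
    NV q (wi h t m) ≤ r ∧ NV q (wi h t (m + 1) - wi h t m) ≤ r * (1/2) ^ m := by
  have a : ∀ m, NV q (wi h t m) ≤ r := by
    intro m
    induction m with
    | zero => simp only [wi]; rw [NV_zero]; exact hr.le
    | succ m ih =>
      simp only [wi]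
      refine (h1 h t _ ht).trans ?_
      have h0 := NV_nonneg hq (wi h t m)
      have : C * NV q (wi h t m) ^ 2 ≤ C * r ^ 2 := by gcongr
      nlinarith
  refine ⟨a m, ?_⟩
  induction m with
  | zero =>
    have := a 1
    simp only [wi] at this ⊢
    simpa using this
  | succ m ih =>
    have e : wi h t (m + 1 + 1) - wi h t (m + 1) = TT h t (wi h t (m + 1)) - TT h t (wi h t m) := rfl
    rw [e]
    refine (h2 h t _ _).trans ?_
    have b1 := a (m + 1)
    have b2 := a m
    have b3 := NV_nonneg hq (wi h t (m + 1) - wi h t m)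
    have b4 := NV_nonneg hq (wi h t (m + 1))
    have b5 := NV_nonneg hq (wi h t m)
    have b6 : C * (NV q (wi h t (m + 1)) + NV q (wi h t m)) ≤ 1/2 := by nlinarith
    calc C * ((NV q (wi h t (m + 1)) + NV q (wi h t m)) * NV q (wi h t (m + 1) - wi h t m))
        = (C * (NV q (wi h t (m + 1)) + NV q (wi h t m))) * NV q (wi h t (m + 1) - wi h t m) := by
          ring
      _ ≤ (1/2) * (r * (1/2) ^ m) := by gcongr
      _ = r * (1/2) ^ (m + 1) := by ring

/-! ### the weights -/

/-- the weights -/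
noncomputable def ql (l : ℝ) (s : ℕ) (ξ : V n) : ℝ := (1 + l * ‖ξ‖) ^ s

lemma ql_wt {l : ℝ} (hl : 0 ≤ l) (hl1 : l ≤ 1) (s : ℕ) : Wt (ql l s : V n → ℝ) := by
  refine ⟨by unfold ql; fun_prop, fun ξ => by unfold ql; positivity, ⟨1, s, fun ξ => ?_⟩⟩
  unfold ql
  rw [one_mul]
  have := norm_nonneg ξ
  gcongr
  nlinarith

lemma one_le_ql {l : ℝ} (hl : 0 ≤ l) (s : ℕ) (ξ : V n) : 1 ≤ ql l s ξ := by
  unfold ql
  have := norm_nonneg ξ
  exact one_le_pow₀ (by nlinarith)

lemma pow_conv {l r : ℝ} (hl : 0 ≤ l) (hl1 : l ≤ 1) (hr : 0 ≤ r) (s : ℕ) :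
    (1 + l * r) ^ s ≤ 1 + l * (1 + r) ^ s := by
  have h1 := (convexOn_pow (𝕜 := ℝ) s).2 (Set.mem_Ici.2 (zero_le_one (α := ℝ)))
    (Set.mem_Ici.2 (by linarith : (0:ℝ) ≤ 1 + r)) (by linarith : 0 ≤ 1 - l) hl (by ring)
  simp only [smul_eq_mul, mul_one, one_pow] at h1
  have e : 1 - l + l * (1 + r) = 1 + l * r := by ring
  rw [e] at h1
  linarith

lemma ql_good {l : ℝ} (hl : 0 ≤ l) (s : ℕ) (hl1 : l * 2 ^ s ≤ 1) : Good (ql l s : V n → ℝ) := by
  have hs : (1:ℝ) ≤ 2 ^ s := one_le_pow₀ (by norm_num)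
  have hl2 : l ≤ 1 := by nlinarith
  refine ⟨ql_wt hl hl2 s, fun ξ η => ?_, one_le_ql hl s, fun k hk => ?_⟩
  · unfold ql
    rw [← mul_pow]
    have h1 := norm_nonneg ξ
    have h2 := norm_nonneg η
    have h3 := norm_add_le ξ η
    have h4 := norm_nonneg (ξ + η)
    gcongr
    have h5 : 0 ≤ l * ‖ξ‖ * (l * ‖η‖) := by positivity
    nlinarith
  · unfold ql
    refine (pow_conv hl hl2 (norm_nonneg k) s).trans ?_
    have : (1 + ‖k‖) ^ s ≤ 2 ^ s := by
      have := norm_nonneg k
      gcongr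
      linarith
    nlinarith

/-- base norm of the data -/
lemma NM_ql_le {l : ℝ} (hl : 0 ≤ l) (hl1 : l ≤ 1) (s : ℕ) (h : Fin n → Fin n → 𝓢(V n, ℝ)) :
    NM (ql l s) h ≤ NM (ql 0 0) h + l * NM (ql 1 s) h := by
  unfold NM
  rw [Finset.mul_sum, ← Finset.sum_add_distrib]
  refine Finset.sum_le_sum fun i _ => ?_
  rw [Finset.mul_sum, ← Finset.sum_add_distrib]
  refine Finset.sum_le_sum fun j _ => ?_
  unfold N
  have i0 := integrable_wt (ql_wt (n := n) le_rfl zero_le_one 0).qs (hat (h i j))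
  have i1 := integrable_wt (ql_wt (n := n) zero_le_one le_rfl s).qs (hat (h i j))
  have i2 := integrable_wt (ql_wt (n := n) hl hl1 s).qs (hat (h i j))
  rw [← integral_const_mul, ← integral_add i0 (i1.const_mul l)]
  refine integral_mono i2 (i0.add (i1.const_mul l)) fun ξ => ?_
  beta_reduce
  unfold qs ql
  have h1 := pow_conv hl hl1 (norm_nonneg ξ) s
  have h2 := (sg_pos ξ).le
  have h3 := norm_nonneg (hat (h i j) ξ)
  calc (1 + l * ‖ξ‖) ^ s * sg ξ * ‖hat (h i j) ξ‖
      ≤ (1 + l * (1 + ‖ξ‖) ^ s) * sg ξ * ‖hat (h i j) ξ‖ := by gcongr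
    _ = _ := by ring

end Pool.Agent.TH602
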