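import Pool.Agent.TH602.B9

set_option autoImplicit false

open Bundle
open scoped ContDiff InnerProductSpace SchwartzMap Manifold

namespace Pool.Agent.TH602

/-- Isometric embedding from a decomposition of the metric. -/
theorem iso_of_decomp (S : Type) [MetricSpace S]
    [ChartedSpace (EuclideanSpace ℝ (Fin 2)) S]
    [IsManifold 𝓘(ℝ, EuclideanSpace ℝ (Fin 2)) ∞ S] [CompactSpace S]
    [RiemannianBundle (fun x : S => TangentSpace 𝓘(ℝ, EuclideanSpace ℝ (Fin 2)) x)]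
    (hdec : ∃ (n : ℕ) (e : S → V n) (c : ℝ) (m : ℕ) (A Ps : Fin m → V n → ℝ)
      (O : Fin m → Set (V n)), ContMDiff 𝓘(ℝ, EuclideanSpace ℝ (Fin 2)) 𝓘(ℝ, V n) ∞ e ∧
      Function.Injective e ∧ (∀ x, ‖e x‖ ≤ 1) ∧ 0 < c ∧
      (∀ k, ContDiff ℝ ∞ (A k) ∧ HasCompactSupport (A k) ∧ IsOpen (O k) ∧ tsupport (A k) ⊆ O k ∧
        ContDiffOn ℝ ∞ (Ps k) (O k)) ∧
      ∀ (x : S) (v : TangentSpace 𝓘(ℝ, EuclideanSpace ℝ (Fin 2)) x), ‖v‖ ^ 2 =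
        c ^ 2 * ∑ J, (fderiv ℝ (uu J) (e x) (@id (V n) (mfderiv 𝓘(ℝ, EuclideanSpace ℝ (Fin 2))
          𝓘(ℝ, V n) e x v))) ^ 2 +
        ∑ k, (A k (e x)) ^ 2 * (fderiv ℝ (Ps k) (e x) (@id (V n)
          (mfderiv 𝓘(ℝ, EuclideanSpace ℝ (Fin 2)) 𝓘(ℝ, V n) e x v))) ^ 2) :
    ∃ (N : ℕ) (F : S → EuclideanSpace ℝ (Fin N)),
      ContMDiff 𝓘(ℝ, EuclideanSpace ℝ (Fin 2)) 𝓘(ℝ, EuclideanSpace ℝ (Fin N)) ∞ F ∧
      Function.Injective F ∧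
      ∀ (x : S) (v : TangentSpace 𝓘(ℝ, EuclideanSpace ℝ (Fin 2)) x),
        ‖@id (EuclideanSpace ℝ (Fin N)) (mfderiv 𝓘(ℝ, EuclideanSpace ℝ (Fin 2))
          𝓘(ℝ, EuclideanSpace ℝ (Fin N)) F x v)‖ = ‖v‖ := by
  obtain ⟨n, e, c, m, A, Ps, O, he, hinj, he1, hc, hAP, hid⟩ := hdec
  obtain ⟨N, G, hG, hGinj, hGid⟩ := assemble hc A Ps O (fun k => (hAP k).1) (fun k => (hAP k).2.1)
    (fun k => (hAP k).2.2.1) (fun k => (hAP k).2.2.2.1) (fun k => (hAP k).2.2.2.2)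
  refine ⟨N, G ∘ e, hG.contMDiff.comp he, fun x y hxy => hinj (hGinj _ _ (he1 x) (he1 y) hxy),
    fun x v => ?_⟩
  have h1 : mfderiv 𝓘(ℝ, EuclideanSpace ℝ (Fin 2)) 𝓘(ℝ, EuclideanSpace ℝ (Fin N)) (G ∘ e) x =
      (mfderiv 𝓘(ℝ, V n) 𝓘(ℝ, EuclideanSpace ℝ (Fin N)) G (e x)).comp
        (mfderiv 𝓘(ℝ, EuclideanSpace ℝ (Fin 2)) 𝓘(ℝ, V n) e x) :=
    mfderiv_comp x ((hG.contMDiff.mdifferentiable (by simp)) (e x)) ((he.mdifferentiable (by simp)) x)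
  have h2 : @id (EuclideanSpace ℝ (Fin N)) (mfderiv 𝓘(ℝ, EuclideanSpace ℝ (Fin 2))
      𝓘(ℝ, EuclideanSpace ℝ (Fin N)) (G ∘ e) x v) = fderiv ℝ G (e x)
        (@id (V n) (mfderiv 𝓘(ℝ, EuclideanSpace ℝ (Fin 2)) 𝓘(ℝ, V n) e x v)) := by
    rw [h1, mfderiv_eq_fderiv]
    rfl
  rw [h2]
  have h3 := hGid (e x) (@id (V n) (mfderiv 𝓘(ℝ, EuclideanSpace ℝ (Fin 2)) 𝓘(ℝ, V n) e x v))
  rw [← hid x v] at h3
  exact (sq_eq_sq₀ (norm_nonneg _) (norm_nonneg _)).1 h3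

end Pool.Agent.TH602
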