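import Pool.Agent.TH602.A8

set_option autoImplicit false

open scoped ContDiff InnerProductSpace SchwartzMap FourierTransform LineDeriv Laplacian Convolution
open MeasureTheory SchwartzMap Real Filter Topology

namespace Pool.Agent.TH602

variable {n : ℕ}

lemma contDiff_uu (J : Idx n) : ContDiff ℝ ∞ (uu J : V n → ℝ) := by
  unfold uu
  split_ifs
  · exact Real.contDiff_sin.comp (contDiff_const.inner ℝ contDiff_id)
  · exact Real.contDiff_cos.comp (contDiff_const.inner ℝ contDiff_id)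

/-- the oscillating components -/
noncomputable def osc (ε : ℝ) (A P : V n → ℝ) (b : Bool) (y : V n) : ℝ :=
  ε * (A y * (if b then Real.sin (P y / ε) else Real.cos (P y / ε)))

lemma contDiff_osc {ε : ℝ} {A P : V n → ℝ} {O : Set (V n)} (hA : ContDiff ℝ ∞ A) (hO : IsOpen O)
    (hs : tsupport A ⊆ O) (hP : ContDiffOn ℝ ∞ P O) (b : Bool) : ContDiff ℝ ∞ (osc ε A P b) := by
  rw [contDiff_iff_contDiffAt]
  intro y
  by_cases hy : y ∈ tsupport A
  · have h1 : ContDiffAt ℝ ∞ P y := hP.contDiffAt (hO.mem_nhds (hs hy))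
    unfold osc
    split_ifs
    · exact contDiffAt_const.mul (hA.contDiffAt.mul
        (Real.contDiff_sin.contDiffAt.comp y (h1.div_const ε)))
    · exact contDiffAt_const.mul (hA.contDiffAt.mul
        (Real.contDiff_cos.contDiffAt.comp y (h1.div_const ε)))
  · have h1 : osc ε A P b =ᶠ[𝓝 y] fun _ => 0 := by
      have : (tsupport A)ᶜ ∈ 𝓝 y := (isClosed_tsupport A).isOpen_compl.mem_nhds hy
      filter_upwards [this] with z hz
      unfold osc
      rw [image_eq_zero_of_notMem_tsupport hz]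
      ring
    exact contDiffAt_const.congr_of_eventuallyEq h1

lemma osc_sq {ε : ℝ} (hε : 0 < ε) {A P : V n → ℝ} {O : Set (V n)} (hA : ContDiff ℝ ∞ A)
    (hO : IsOpen O) (hs : tsupport A ⊆ O) (hP : ContDiffOn ℝ ∞ P O) (y a : V n) :
    (fderiv ℝ (osc ε A P true) y a) ^ 2 + (fderiv ℝ (osc ε A P false) y a) ^ 2 =
      ε ^ 2 * (fderiv ℝ A y a) ^ 2 + (A y) ^ 2 * (fderiv ℝ P y a) ^ 2 := by
  by_cases hy : y ∈ tsupport A
  · have h1 : ContDiffAt ℝ ∞ P y := hP.contDiffAt (hO.mem_nhds (hs hy))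
    have h2 : HasFDerivAt P (fderiv ℝ P y) y := (h1.differentiableAt (by simp)).hasFDerivAt
    have h3 : HasFDerivAt A (fderiv ℝ A y) y := (hA.differentiable (by simp)).differentiableAt.hasFDerivAt
    have h4 : HasFDerivAt (fun z => P z / ε) (ε⁻¹ • fderiv ℝ P y) y := by
      simpa only [div_eq_mul_inv] using h2.mul_const ε⁻¹
    have h5 : HasFDerivAt (osc ε A P true) _ y := (h3.mul h4.sin).const_mul ε
    have h6 : HasFDerivAt (osc ε A P false) _ y := (h3.mul h4.cos).const_mul ε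
    rw [h5.fderiv, h6.fderiv]
    simp only [smul_apply, add_apply, smul_eq_mul]
    have h7 := Real.sin_sq_add_cos_sq (P y / ε)
    have h8 : ε * ε⁻¹ = 1 := mul_inv_cancel₀ hε.ne'
    have h9 : ε ^ 2 * (ε⁻¹) ^ 2 = 1 := by rw [← mul_pow, h8, one_pow]
    linear_combination (ε ^ 2 * (fderiv ℝ A y a) ^ 2 + ε ^ 2 * ε⁻¹ ^ 2 * (A y) ^ 2 *
      (fderiv ℝ P y a) ^ 2) * h7 + (A y) ^ 2 * (fderiv ℝ P y a) ^ 2 * h9
  · have h0 : (tsupport A)ᶜ ∈ 𝓝 y := (isClosed_tsupport A).isOpen_compl.mem_nhds hy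
    have h1 : ∀ b, osc ε A P b =ᶠ[𝓝 y] fun _ => (0:ℝ) := by
      intro b
      filter_upwards [h0] with z hz
      unfold osc
      rw [image_eq_zero_of_notMem_tsupport hz]
      ring
    have h2 : A =ᶠ[𝓝 y] fun _ => (0:ℝ) := by
      filter_upwards [h0] with z hz
      exact image_eq_zero_of_notMem_tsupport hz
    rw [(h1 true).fderiv_eq, (h1 false).fderiv_eq, h2.fderiv_eq, image_eq_zero_of_notMem_tsupport hy]
    simp

lemma inner_freq_inl (i : Fin n) (x : V n) : ⟪freq (Sum.inl i), x⟫_ℝ = x i := by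
  have := EuclideanSpace.inner_single_left (𝕜 := ℝ) i (1:ℝ) x
  simpa [freq] using this

lemma sep (a b : ℝ) (h : |a - b| ≤ 2) :
    (2 / π) ^ 2 * (a - b) ^ 2 ≤ (Real.cos a - Real.cos b) ^ 2 + (Real.sin a - Real.sin b) ^ 2 := by
  have h1 : (Real.cos a - Real.cos b) ^ 2 + (Real.sin a - Real.sin b) ^ 2 =
      4 * Real.sin ((a - b) / 2) ^ 2 := by
    rw [Real.cos_sub_cos, Real.sin_sub_sin]
    have := Real.sin_sq_add_cos_sq ((a + b) / 2)
    linear_combination (4 * Real.sin ((a - b) / 2) ^ 2) * this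
  rw [h1]
  have h2 : |(a - b) / 2| ≤ π / 2 := by
    rw [abs_div, abs_of_pos (by norm_num : (0:ℝ) < 2)]
    have := Real.pi_gt_three
    linarith
  have h3 := Real.mul_abs_le_abs_sin h2
  have h4 : (2 / π * |(a - b) / 2|) ^ 2 ≤ |Real.sin ((a - b) / 2)| ^ 2 := by
    have : 0 ≤ 2 / π * |(a - b) / 2| := by positivity
    gcongr
  rw [sq_abs, mul_pow, sq_abs] at h4
  have : (2 / π) ^ 2 * (a - b) ^ 2 = 4 * ((2 / π) ^ 2 * ((a - b) / 2) ^ 2) := by ring
  rw [this]
  linarith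

lemma sum3 {m : ℕ} (f : Fin m → Fin n → Fin n → ℝ) :
    ∑ k, ∑ i, ∑ j, f k i j = ∑ i, ∑ j, ∑ k, f k i j := by
  rw [Finset.sum_comm]
  exact Finset.sum_congr rfl fun i _ => Finset.sum_comm

theorem assemble {n m : ℕ} {c : ℝ} (hc : 0 < c) (A P : Fin m → V n → ℝ) (O : Fin m → Set (V n))
    (hA : ∀ k, ContDiff ℝ ∞ (A k)) (hcs : ∀ k, HasCompactSupport (A k)) (hO : ∀ k, IsOpen (O k))
    (hs : ∀ k, tsupport (A k) ⊆ O k) (hP : ∀ k, ContDiffOn ℝ ∞ (P k) (O k)) :
    ∃ (N : ℕ) (G : V n → EuclideanSpace ℝ (Fin N)), ContDiff ℝ ∞ G ∧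
      (∀ a b, ‖a‖ ≤ 1 → ‖b‖ ≤ 1 → G a = G b → a = b) ∧
      ∀ y a, ‖fderiv ℝ G y a‖ ^ 2 = c ^ 2 * ∑ J, (fderiv ℝ (uu J) y a) ^ 2 +
        ∑ k, (A k y) ^ 2 * (fderiv ℝ (P k) y a) ^ 2 := by
  classical
  set As : Fin m → 𝓢(V n, ℝ) := fun k => (hcs k).toSchwartzMap (hA k) with hAs
  have hAs' : ∀ k, (As k : V n → ℝ) = A k := fun k => rfl
  set h : Fin n → Fin n → 𝓢(V n, ℝ) := fun i j =>
    - ∑ k, mulS (dd (ee i) (As k)) (dd (ee j) (As k)) with hh
  have hsym : ∀ i j, h i j = h j i := by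
    intro i j
    simp only [hh]
    have : ∀ k : Fin m, mulS (dd (ee i) (As k)) (dd (ee j) (As k)) =
        mulS (dd (ee j) (As k)) (dd (ee i) (As k)) := fun k => mulS_comm _ _
    simp only [this]
  have hquad : ∀ x a : V n, ∑ i, ∑ j, h i j x * a i * a j = - ∑ k, (fderiv ℝ (A k) x a) ^ 2 := by
    intro x a
    have h1 : ∀ k, (fderiv ℝ (A k) x a) ^ 2 = ∑ i, ∑ j, (fderiv ℝ (A k) x (ee i) *
        fderiv ℝ (A k) x (ee j)) * a i * a j := by
      intro k
      rw [fderiv_expand (fderiv ℝ (A k) x) a, sq, Finset.sum_mul_sum]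
      exact Finset.sum_congr rfl fun i _ => Finset.sum_congr rfl fun j _ => by ring
    have h2 : ∀ i j, h i j x = - ∑ k, fderiv ℝ (A k) x (ee i) * fderiv ℝ (A k) x (ee j) := by
      intro i j
      simp only [hh, neg_apply', sum_apply', mulS_apply, dd_apply]
      rfl
    have h3 : ∀ i j, h i j x * a i * a j = - ∑ k, (fderiv ℝ (A k) x (ee i) *
        fderiv ℝ (A k) x (ee j)) * a i * a j := by
      intro i j
      rw [h2, neg_mul, neg_mul, Finset.sum_mul, Finset.sum_mul]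
    simp only [h1, h3, Finset.sum_neg_distrib]
    rw [sum3 (fun k i j => fderiv ℝ (A k) x (ee i) * fderiv ℝ (A k) x (ee j) * a i * a j)]
  set η : ℝ := 1 / (10 * (n + 1)) with hη
  have hη0 : 0 < η := by positivity
  obtain ⟨t₀, ht₀, hw⟩ := perturb h hsym hη0
  set t := t₀ / 2 with ht
  have htp : 0 < t := by positivity
  obtain ⟨w, hwC, hwη, hwid⟩ := hw t htp (by rw [ht]; linarith)
  set ε : ℝ := c * Real.sqrt t with hε
  have hε0 : 0 < ε := mul_pos hc (Real.sqrt_pos.2 htp)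
  have hε2 : ε ^ 2 = c ^ 2 * t := by rw [hε, mul_pow, Real.sq_sqrt htp.le]
  set g : (Idx n ⊕ (Fin m × Bool)) → V n → ℝ := fun K => match K with
    | Sum.inl J => fun y => c * (uu J y + w J y)
    | Sum.inr p => osc ε (A p.1) (P p.1) p.2 with hg
  have hgC : ∀ K, ContDiff ℝ ∞ (g K) := by
    rintro (J | p)
    · exact contDiff_const.mul ((contDiff_uu J).add (hwC J))
    · exact contDiff_osc (hA p.1) (hO p.1) (hs p.1) (hP p.1) p.2
  set N := Fintype.card (Idx n ⊕ (Fin m × Bool)) with hN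
  set σ := Fintype.equivFin (Idx n ⊕ (Fin m × Bool)) with hσ
  set G : V n → EuclideanSpace ℝ (Fin N) := fun y => WithLp.toLp 2 fun i => g (σ.symm i) y with hG
  have hGC : ContDiff ℝ ∞ G := by
    rw [contDiff_euclidean]
    intro i
    exact hgC (σ.symm i)
  refine ⟨N, G, hGC, fun a b ha hb hab => ?_, fun y a => ?_⟩
  · have hcomp : ∀ K, g K a = g K b := by
      intro K
      have := congrArg (fun z : EuclideanSpace ℝ (Fin N) => z (σ K)) hab
      simpa [hG] using this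
    have hlip : ∀ J, |w J a - w J b| ≤ η * ‖a - b‖ := by
      intro J
      have := (convex_univ (𝕜 := ℝ) (E := V n)).norm_image_sub_le_of_norm_fderiv_le (𝕜 := ℝ)
        (f := w J) (C := η) (fun x _ => ((hwC J).differentiable (by simp)).differentiableAt)
        (fun x _ => hwη J x) (Set.mem_univ b) (Set.mem_univ a)
      rwa [Real.norm_eq_abs] at this
    have hdiff : ∀ J : Idx n, |uu J a - uu J b| ≤ η * ‖a - b‖ := by
      intro J
      have h1 := hcomp (Sum.inl J)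
      simp only [hg] at h1
      have h2 : uu J a + w J a = uu J b + w J b := mul_left_cancel₀ hc.ne' h1
      have h3 : uu J a - uu J b = -(w J a - w J b) := by linarith
      rw [h3, abs_neg]
      exact hlip J
    have hi : ∀ i, (2 / π) ^ 2 * (a i - b i) ^ 2 ≤ 2 * (η * ‖a - b‖) ^ 2 := by
      intro i
      have e1 := hdiff (Sum.inl i, false)
      have e2 := hdiff (Sum.inl i, true)
      simp only [uu, inner_freq_inl, if_true, Bool.false_eq_true, if_false] at e1 e2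
      have e3 : |a i - b i| ≤ 2 := by
        have q1 : ‖a i‖ ≤ ‖a‖ := PiLp.norm_apply_le a i
        have q2 : ‖b i‖ ≤ ‖b‖ := PiLp.norm_apply_le b i
        rw [Real.norm_eq_abs] at q1 q2
        have := abs_sub (a i) (b i)
        linarith
      have e4 := sep (a i) (b i) e3
      have e5 : (Real.cos (a i) - Real.cos (b i)) ^ 2 ≤ (η * ‖a - b‖) ^ 2 := by
        rw [← sq_abs]; gcongr
      have e6 : (Real.sin (a i) - Real.sin (b i)) ^ 2 ≤ (η * ‖a - b‖) ^ 2 := by
        rw [← sq_abs]; gcongr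
      linarith
    have hsum : (2 / π) ^ 2 * ‖a - b‖ ^ 2 ≤ n * (2 * (η * ‖a - b‖) ^ 2) := by
      rw [EuclideanSpace.norm_sq_eq, Finset.mul_sum]
      have : ∑ i : Fin n, (2 / π) ^ 2 * ‖(a - b) i‖ ^ 2 ≤ ∑ i : Fin n, 2 * (η * ‖a - b‖) ^ 2 := by
        refine Finset.sum_le_sum fun i _ => ?_
        rw [Real.norm_eq_abs, sq_abs]
        exact hi i
      rw [Finset.sum_const, nsmul_eq_mul, Finset.card_univ, Fintype.card_fin] at this
      exact this
    have h4 : (2 / π) ^ 2 ≥ 1 / 4 := by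
      have h5 : 1 / 2 ≤ 2 / π := by
        rw [div_le_div_iff₀ (by norm_num) Real.pi_pos]
        linarith [Real.pi_le_four]
      calc (1:ℝ) / 4 = (1 / 2) ^ 2 := by norm_num
        _ ≤ (2 / π) ^ 2 := by gcongr
    have h6 : (n:ℝ) * (2 * η ^ 2) ≤ 1 / 50 := by
      rw [hη, div_pow, one_pow, mul_pow]
      have hn : (0:ℝ) ≤ n := by positivity
      rw [← mul_div_assoc, ← mul_div_assoc, div_le_div_iff₀ (by positivity) (by norm_num)]
      nlinarith
    have h7 : ‖a - b‖ ^ 2 ≤ 0 := by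
      have h8 : (n:ℝ) * (2 * (η * ‖a - b‖) ^ 2) ≤ 1 / 50 * ‖a - b‖ ^ 2 := by
        calc (n:ℝ) * (2 * (η * ‖a - b‖) ^ 2) = (n * (2 * η ^ 2)) * ‖a - b‖ ^ 2 := by ring
          _ ≤ _ := by gcongr
      have h9 : 1 / 4 * ‖a - b‖ ^ 2 ≤ (2 / π) ^ 2 * ‖a - b‖ ^ 2 := by gcongr
      linarith
    have h10 : ‖a - b‖ = 0 := by
      have := sq_nonneg ‖a - b‖
      exact pow_eq_zero_iff (two_ne_zero) |>.1 (le_antisymm h7 this)
    exact sub_eq_zero.1 (norm_eq_zero.1 h10)
  · have hcomp : ∀ i, (fderiv ℝ G y a) i = fderiv ℝ (g (σ.symm i)) y a := by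
      intro i
      have h1 : HasFDerivAt G (fderiv ℝ G y) y :=
        (hGC.differentiable (by simp)).differentiableAt.hasFDerivAt
      have h2 : HasFDerivAt (fun y => G y i) ((EuclideanSpace.proj i).comp (fderiv ℝ G y)) y :=
        (EuclideanSpace.proj (𝕜 := ℝ) i).hasFDerivAt.comp y h1
      have h3 : fderiv ℝ (g (σ.symm i)) y = (EuclideanSpace.proj i).comp (fderiv ℝ G y) := h2.fderiv
      rw [h3]
      rfl
    rw [EuclideanSpace.norm_sq_eq]
    simp only [hcomp, Real.norm_eq_abs, sq_abs]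
    rw [Equiv.sum_comp σ.symm (fun K => (fderiv ℝ (g K) y a) ^ 2), Fintype.sum_sum_type]
    have h1 : ∀ J : Idx n, (fderiv ℝ (g (Sum.inl J)) y a) ^ 2 =
        c ^ 2 * (fderiv ℝ (uu J) y a + fderiv ℝ (w J) y a) ^ 2 := by
      intro J
      have h2 : HasFDerivAt (g (Sum.inl J)) (c • (fderiv ℝ (uu J) y + fderiv ℝ (w J) y)) y := by
        have e1 : HasFDerivAt (uu J) (fderiv ℝ (uu J) y) y :=
          ((contDiff_uu J).differentiable (by simp)).differentiableAt.hasFDerivAt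
        have e2 : HasFDerivAt (w J) (fderiv ℝ (w J) y) y :=
          ((hwC J).differentiable (by simp)).differentiableAt.hasFDerivAt
        exact (e1.add e2).const_mul c
      rw [h2.fderiv]
      simp only [smul_apply, add_apply, smul_eq_mul]
      ring
    have h2 : ∑ p : Fin m × Bool, (fderiv ℝ (g (Sum.inr p)) y a) ^ 2 =
        ∑ k, (ε ^ 2 * (fderiv ℝ (A k) y a) ^ 2 + (A k y) ^ 2 * (fderiv ℝ (P k) y a) ^ 2) := by
      rw [Fintype.sum_prod_type]
      refine Finset.sum_congr rfl fun k _ => ?_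
      rw [Fintype.sum_bool]
      exact osc_sq hε0 (hA k) (hO k) (hs k) (hP k) y a
    rw [Finset.sum_congr rfl fun J _ => h1 J, h2, ← Finset.mul_sum, hwid y a, hquad y a,
      Finset.sum_add_distrib, ← Finset.mul_sum, hε2]
    ring

end Pool.Agent.TH602
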