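import Mathlib

set_option autoImplicit false

open scoped ContDiff InnerProductSpace SchwartzMap

namespace Pool.Agent.TH602

/-- the Euclidean space of dimension `n` -/
abbrev V (n : ℕ) : Type := EuclideanSpace ℝ (Fin n)

/-- the frequencies `e i` and `e i + e j` of the reference map -/
noncomputable def freq {n : ℕ} : Fin n ⊕ (Fin n × Fin n) → V n
  | Sum.inl i => EuclideanSpace.single i 1
  | Sum.inr p => EuclideanSpace.single p.1 1 + EuclideanSpace.single p.2 1

/-- indices of the components of the reference map -/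
abbrev Idx (n : ℕ) : Type := (Fin n ⊕ (Fin n × Fin n)) × Bool

/-- the components `cos ⟨κ, x⟩`, `sin ⟨κ, x⟩` of the reference map -/
noncomputable def uu {n : ℕ} (J : Idx n) (x : V n) : ℝ :=
  if J.2 then Real.sin ⟪freq J.1, x⟫_ℝ else Real.cos ⟪freq J.1, x⟫_ℝ

end Pool.Agent.TH602
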